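import Pool.Agent.Work.MP_807b32_lc.Lin.AWt

/-!
Certificate systems: points `z = (y, x)`, for each segment `j` a certificate set `A j z`.
-/

namespace Pool.Agent.Work.MP_807b32_lc.Lin

open Finset

variable {Γ α J : Type} [Fintype α] [DecidableEq α] [Fintype J] [DecidableEq J]

/-- Union of the certificate sets of the segments in `S`. -/
def un (A : J → Γ × (α → Bool) → Finset α) (S : Finset J) (z : Γ × (α → Bool)) : Finset α :=
  S.biUnion (fun j => A j z)

/-- The coordinates where two points differ. -/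
def dif (x z : Γ × (α → Bool)) : Finset α := univ.filter (fun i => x.2 i ≠ z.2 i)

/-- Same first component, same certificates outside `I`, same values off the part of `D` that the
certificates outside `I` leave free. -/
def rel (A : J → Γ × (α → Bool) → Finset α) (I : Finset J) (D : Finset α)
    (x z : Γ × (α → Bool)) : Prop :=
  x.1 = z.1 ∧ (∀ j, j ∉ I → A j x = A j z) ∧ ∀ i, i ∉ D \ un A Iᶜ z → x.2 i = z.2 i

open Classical in
/-- The class of `z` in `X`. -/
noncomputable def cl (X : Finset (Γ × (α → Bool))) (A : J → Γ × (α → Bool) → Finset α)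
    (I : Finset J) (D : Finset α) (z : Γ × (α → Bool)) : Finset (Γ × (α → Bool)) :=
  X.filter (fun x => rel A I D x z)

/-- Sum of the logarithms of the class sizes. -/
noncomputable def Phi (X : Finset (Γ × (α → Bool))) (A : J → Γ × (α → Bool) → Finset α)
    (I : Finset J) (D : Finset α) : ℝ :=
  ∑ z ∈ X, Real.log (cl X A I D z).card

/-- Sum over `z` of the mean distance from `z` to a point of its class. -/
noncomputable def uu (X : Finset (Γ × (α → Bool))) (A : J → Γ × (α → Bool) → Finset α)
    (I : Finset J) (D : Finset α) : ℝ :=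
  ∑ z ∈ X, (∑ x ∈ cl X A I D z, ((dif x z).card : ℝ)) / (cl X A I D z).card

/-- The planted distribution of the window `W` given `z`. -/
noncomputable def mu (X : Finset (Γ × (α → Bool))) (A : J → Γ × (α → Bool) → Finset α)
    (I : Finset J) (D : Finset α) (z : Γ × (α → Bool)) (W : Finset α) : ℝ :=
  Ex (1 / 2) (fun B =>
    (((cl X A I (D \ B) z ×ˢ cl X A I (D ∩ B) z).filter (fun t => dif t.1 t.2 = W)).card : ℝ) /
      ((cl X A I (D \ B) z).card * (cl X A I (D ∩ B) z).card))

/-- The information between the two halves of `D`. -/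
noncomputable def II (X : Finset (Γ × (α → Bool))) (A : J → Γ × (α → Bool) → Finset α)
    (I : Finset J) (D : Finset α) : ℝ :=
  Phi X A I D - Ex (1 / 2) (fun B => Phi X A I (D ∩ B)) - Ex (1 / 2) (fun B => Phi X A I (D \ B))

/-- Average of `uu`. -/
noncomputable def UU (X : Finset (Γ × (α → Bool))) (A : J → Γ × (α → Bool) → Finset α)
    (q p : ℝ) : ℝ :=
  Ex q (fun I => Ex p (fun D => uu X A I D))

/-- Average of `Phi`. -/
noncomputable def PH (X : Finset (Γ × (α → Bool))) (A : J → Γ × (α → Bool) → Finset α)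
    (q p : ℝ) : ℝ :=
  Ex q (fun I => Ex p (fun D => Phi X A I D))

/-- Two points that agree on both certificates have the same certificate. -/
def Good (X : Finset (Γ × (α → Bool))) (A : J → Γ × (α → Bool) → Finset α) : Prop :=
  ∀ j, ∀ z ∈ X, ∀ z' ∈ X, z.1 = z'.1 → (∀ i ∈ A j z, z.2 i = z'.2 i) →
    (∀ i ∈ A j z', z.2 i = z'.2 i) → A j z = A j z'

open Classical in
/-- The points whose window `W` is free for the segments outside `I` and has a large class. -/
noncomputable def GG (X : Finset (Γ × (α → Bool))) (A : J → Γ × (α → Bool) → Finset α)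
    (I : Finset J) (W : Finset α) : Finset (Γ × (α → Bool)) :=
  X.filter (fun z => Disjoint W (un A Iᶜ z) ∧ 8 ^ W.card ≤ (cl X A I W z).card ^ 4)

variable {X : Finset (Γ × (α → Bool))} {A : J → Γ × (α → Bool) → Finset α} {I : Finset J}
  {D : Finset α}

omit [Fintype α] in
theorem mem_cl {x z : Γ × (α → Bool)} : x ∈ cl X A I D z ↔ x ∈ X ∧ rel A I D x z := by
  classical
  unfold cl
  rw [Finset.mem_filter]

omit [Fintype α] in
theorem mem_GG {W : Finset α} {z : Γ × (α → Bool)} : z ∈ GG X A I W ↔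
    z ∈ X ∧ Disjoint W (un A Iᶜ z) ∧ 8 ^ W.card ≤ (cl X A I W z).card ^ 4 := by
  classical
  unfold GG
  rw [Finset.mem_filter]

omit [Fintype α] [Fintype J] [DecidableEq J] in
theorem mem_un {S : Finset J} {z : Γ × (α → Bool)} {i : α} :
    i ∈ un A S z ↔ ∃ j ∈ S, i ∈ A j z := Finset.mem_biUnion

omit [Fintype α] in
theorem rel.un_eq {x z : Γ × (α → Bool)} (h : rel A I D x z) : un A Iᶜ x = un A Iᶜ z :=
  Finset.biUnion_congr rfl fun j hj => h.2.1 j (Finset.mem_compl.mp hj)

omit [Fintype α] in
theorem rel_refl (z : Γ × (α → Bool)) : rel A I D z z := ⟨rfl, fun _ _ => rfl, fun _ _ => rfl⟩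

omit [Fintype α] in
theorem rel.symm {x z : Γ × (α → Bool)} (h : rel A I D x z) : rel A I D z x :=
  ⟨h.1.symm, fun j hj => (h.2.1 j hj).symm, fun i hi => (h.2.2 i (h.un_eq ▸ hi)).symm⟩

omit [Fintype α] in
theorem rel.trans {x y z : Γ × (α → Bool)} (h : rel A I D x y) (h' : rel A I D y z) :
    rel A I D x z :=
  ⟨h.1.trans h'.1, fun j hj => (h.2.1 j hj).trans (h'.2.1 j hj),
    fun i hi => (h.2.2 i (h'.un_eq ▸ hi)).trans (h'.2.2 i hi)⟩

omit [Fintype α] in
theorem rel.mono {D' : Finset α} {x z : Γ × (α → Bool)} (h : rel A I D x z) (hD : D ⊆ D') :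
    rel A I D' x z :=
  ⟨h.1, h.2.1, fun i hi => h.2.2 i fun hh => hi (Finset.sdiff_subset_sdiff hD subset_rfl hh)⟩

omit [Fintype α] in
theorem cl_eq {x z : Γ × (α → Bool)} (h : rel A I D x z) : cl X A I D x = cl X A I D z := by
  ext y
  rw [mem_cl, mem_cl]
  exact ⟨fun hy => ⟨hy.1, hy.2.trans h⟩, fun hy => ⟨hy.1, hy.2.trans h.symm⟩⟩

omit [Fintype α] in
theorem self_mem_cl {z : Γ × (α → Bool)} (hz : z ∈ X) : z ∈ cl X A I D z :=
  mem_cl.mpr ⟨hz, rel_refl z⟩

omit [Fintype α] in
theorem cl_pos {z : Γ × (α → Bool)} (hz : z ∈ X) : 0 < (cl X A I D z).card :=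
  Finset.card_pos.mpr ⟨z, self_mem_cl hz⟩

theorem rel.dif_subset {x z : Γ × (α → Bool)} (h : rel A I D x z) : dif x z ⊆ D \ un A Iᶜ z := by
  intro i hi
  by_contra hh
  exact (Finset.mem_filter.mp hi).2 (h.2.2 i hh)

theorem cl_card_le (z : Γ × (α → Bool)) : (cl X A I D z).card ≤ 2 ^ D.card := by
  classical
  have : (cl X A I D z).card ≤ D.powerset.card := by
    apply Finset.card_le_card_of_injOn (fun x => dif x z)
    · intro x hx
      exact Finset.mem_coe.mpr (Finset.mem_powerset.mpr
        ((mem_cl.mp hx).2.dif_subset.trans Finset.sdiff_subset))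
    · intro x hx y hy hxy
      have h1 := (mem_cl.mp hx).2.1
      have h2 := (mem_cl.mp hy).2.1
      apply Prod.ext (h1.trans h2.symm)
      funext i
      have h3 : i ∈ dif x z ↔ i ∈ dif y z := by
        have : dif x z = dif y z := hxy
        rw [this]
      simp only [dif, Finset.mem_filter, Finset.mem_univ, true_and] at h3
      revert h3
      cases x.2 i <;> cases y.2 i <;> cases z.2 i <;> simp
  rwa [Finset.card_powerset] at this

end Pool.Agent.Work.MP_807b32_lc.Lin
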