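import Pool.Agent.Work.MP_807b32_lc.Lin.AStep

/-!
Extracting one window with a dense set of free points.

Plan. Write `n = card α`, `l = card J`, and `𝔼 g` for
`Ex q (fun I => Ex p (fun D => ∑ z ∈ X, ∑ W, mu X A I D z W * g I D z W))`; `𝔼 1 = X.card`.
Let `δ = W.card * log 2 - log (cl X A I W z).card ≥ 0` and
`Z = log 2 / 4 * W.card - δ - log 2 / 8 * ub * p * n - n * [4 q l < I.card]`.
By `card_avg`, `hu`, `plant_delta`, `II_avg`, `hI`, `Ex_tail`, `hl`:
`𝔼 Z ≥ ub p n X.card (log 2 / 8 - 1 / 40 - 1 / 40) ≥ ub p n X.card / 30` (`log 2 > 0.69`).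
Suppose the conclusion fails. Pointwise `Z ≤ n * [Z > 0]`, and `Z > 0` gives `I.card ≤ 4 q l`,
`ub p n / 2 < W.card`, `8 ^ W.card ≤ (cl X A I W z).card ^ 4`. On the support of `mu`
(`mu_supp`) `W ⊆ D` and `z ∈ GG X A I W`. As `0 ≤ mu ≤ 1` and `∑ W, mu = 1`,
`∑ z ∈ X, ∑ W, mu * [Z > 0] ≤ X.card * [4 p n < D.card] +
∑ W, [ub p n / 2 < W.card] * [W ⊆ D] * (ub / 20) ^ W.card * X.card`; average over `D` with
`Ex_tail`, `Ex_subset`, `sum_pow_tail` (`lam = p * ub / 20`, `a = ub p n / 2`): at most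
`2 * exp (-(ub p n / 5)) * X.card`. This contradicts `hn` (`n > 0` follows from `hn`).
-/

namespace Pool.Agent.Work.MP_807b32_lc.Lin

open Finset

section
variable {Γ α J : Type} [Fintype α] [DecidableEq α] [Fintype J] [DecidableEq J]

theorem aextract_big {k m : ℕ} (hm : 0 < m)
    (h : k * Real.log 2 - Real.log m < Real.log 2 / 4 * k) : 8 ^ k ≤ m ^ 4 := by
  have h0 : (0 : ℝ) < m := by exact_mod_cast hm
  have h1 : Real.log ((8 : ℝ) ^ k) ≤ Real.log ((m : ℝ) ^ 4) := by
    have h8 : Real.log 8 = 3 * Real.log 2 := by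
      rw [show (8 : ℝ) = 2 ^ 3 by norm_num, Real.log_pow]
      norm_num
    rw [Real.log_pow, Real.log_pow, h8]
    push_cast
    linarith
  have h2 := (Real.log_le_log_iff (by positivity) (by positivity)).1 h1
  exact_mod_cast h2

theorem aextract_delta (X : Finset (Γ × (α → Bool))) (A : J → Γ × (α → Bool) → Finset α)
    (I : Finset J) (W : Finset α) {z : Γ × (α → Bool)} (hz : z ∈ X) :
    0 ≤ W.card * Real.log 2 - Real.log (cl X A I W z).card := by
  have h0 : (0 : ℝ) < (cl X A I W z).card := by exact_mod_cast cl_pos hz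
  have h1 : ((cl X A I W z).card : ℝ) ≤ 2 ^ W.card := by exact_mod_cast cl_card_le z
  have h2 := Real.log_le_log h0 h1
  rw [Real.log_pow] at h2
  linarith

open Classical in
theorem aextract_pt (X : Finset (Γ × (α → Bool))) (A : J → Γ × (α → Bool) → Finset α)
    (I : Finset J) (D W : Finset α) {z : Γ × (α → Bool)} (hz : z ∈ X) {a b c : ℝ} (ha : 0 ≤ a) :
    mu X A I D z W * (Real.log 2 / 4 * W.card -
      (W.card * Real.log 2 - Real.log (cl X A I W z).card) - Real.log 2 / 4 * a -
        Fintype.card α * (if b < I.card then 1 else 0)) ≤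
      Fintype.card α * (mu X A I D z W * (if c < D.card then 1 else 0) +
        if (a < W.card ∧ W ⊆ D ∧ (I.card : ℝ) ≤ b ∧ (W.card : ℝ) ≤ c) ∧ z ∈ GG X A I W
          then 1 else 0) := by
  have hm0 := mu_nonneg X A I D z W
  have hm1 : mu X A I D z W ≤ 1 := by
    rw [← mu_sum X A I D hz]
    exact Finset.single_le_sum (f := fun W => mu X A I D z W)
      (fun W _ => mu_nonneg X A I D z W) (Finset.mem_univ W)
  have hn : (0 : ℝ) ≤ Fintype.card α := Nat.cast_nonneg _
  have hW : (W.card : ℝ) ≤ Fintype.card α := by exact_mod_cast Finset.card_le_univ W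
  have hW0 : (0 : ℝ) ≤ W.card := Nat.cast_nonneg _
  have hδ := aextract_delta X A I W hz
  have hL0 : 0 < Real.log 2 := Real.log_pos one_lt_two
  have hL1 : Real.log 2 ≤ 1 := by linarith [Real.log_two_lt_d9]
  have hLW : Real.log 2 / 4 * W.card ≤ Fintype.card α := by nlinarith
  have hLa : 0 ≤ Real.log 2 / 4 * a := by positivity
  have ht : (0 : ℝ) ≤ Fintype.card α * (if b < I.card then 1 else 0) := by positivity
  set Z := Real.log 2 / 4 * W.card - (W.card * Real.log 2 - Real.log (cl X A I W z).card) -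
    Real.log 2 / 4 * a - Fintype.card α * (if b < I.card then 1 else 0) with hZ
  have hZn : Z ≤ Fintype.card α := by linarith
  by_cases h0 : mu X A I D z W = 0
  · rw [h0, zero_mul]
    positivity
  rcases le_or_gt Z 0 with h1 | h1
  · exact (mul_nonpos_of_nonneg_of_nonpos hm0 h1).trans (by positivity)
  have h2 : mu X A I D z W * Z ≤ Fintype.card α * mu X A I D z W := by nlinarith
  by_cases hD : c < D.card
  · rw [if_pos hD, mul_one, mul_add]
    exact h2.trans (le_add_of_nonneg_right (by positivity))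
  have hs := mu_supp X A I D h0
  have hWD : W ⊆ D := hs.trans Finset.sdiff_subset
  have hI : ¬ b < I.card := by
    intro hI
    rw [if_pos hI] at hZ
    linarith
  have h3 : a < W.card := by
    by_contra h3
    have := mul_le_mul_of_nonneg_left (not_lt.1 h3) (show 0 ≤ Real.log 2 / 4 by positivity)
    linarith
  have h4 : (W.card : ℝ) ≤ D.card := by exact_mod_cast Finset.card_le_card hWD
  rw [if_neg hD, if_pos ⟨⟨h3, hWD, not_lt.1 hI, h4.trans (not_lt.1 hD)⟩, mem_GG.2 ⟨hz,
    Finset.disjoint_of_subset_left hs Finset.sdiff_disjoint,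
    aextract_big (cl_pos hz) (by linarith)⟩⟩, mul_zero, zero_add]
  nlinarith

theorem aextract_ID (X : Finset (Γ × (α → Bool))) (A : J → Γ × (α → Bool) → Finset α)
    (I : Finset J) (D : Finset α) {a b c r : ℝ} (ha : 0 ≤ a) (hr : 0 ≤ r)
    (h : ∀ W : Finset α, (I.card : ℝ) ≤ b → a < W.card → (W.card : ℝ) ≤ c →
      ((GG X A I W).card : ℝ) ≤ r ^ W.card * X.card) :
    Real.log 2 / 4 * (∑ z ∈ X, ∑ W, mu X A I D z W * (W.card : ℝ)) - II X A I D -
      (Real.log 2 / 4 * a * X.card + Fintype.card α * X.card * (if b < I.card then 1 else 0)) ≤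
      Fintype.card α * X.card * ((if c < D.card then 1 else 0) +
        ∑ W : Finset α, (if a < W.card then r ^ W.card else 0) * (if W ⊆ D then 1 else 0)) := by
  classical
  have h1 := Finset.sum_le_sum fun z (hz : z ∈ X) => Finset.sum_le_sum
    fun W (_ : W ∈ Finset.univ) => aextract_pt X A I D W hz (b := b) (c := c) ha
  have h2 := plant_delta X A I D
  have h3 : ∀ t : ℝ, ∑ z ∈ X, ∑ W, mu X A I D z W * t = t * X.card := by
    intro t
    rw [Finset.sum_congr rfl fun z hz => by rw [← Finset.sum_mul, mu_sum X A I D hz, one_mul],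
      Finset.sum_const, nsmul_eq_mul, mul_comm]
  have h4 : ∑ z ∈ X, ∑ W : Finset α,
      (if (a < W.card ∧ W ⊆ D ∧ (I.card : ℝ) ≤ b ∧ (W.card : ℝ) ≤ c) ∧ z ∈ GG X A I W
        then (1 : ℝ) else 0) ≤ X.card *
      ∑ W : Finset α, (if a < W.card then r ^ W.card else 0) * (if W ⊆ D then 1 else 0) := by
    rw [Finset.sum_comm, Finset.mul_sum]
    refine Finset.sum_le_sum fun W _ => ?_
    by_cases hc : a < W.card ∧ W ⊆ D ∧ (I.card : ℝ) ≤ b ∧ (W.card : ℝ) ≤ c
    · rw [if_pos hc.1, if_pos hc.2.1, mul_one, mul_comm]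
      refine le_trans ?_ (h W hc.2.2.1 hc.1 hc.2.2.2)
      rw [Finset.sum_boole]
      refine Nat.cast_le.2 (Finset.card_le_card fun z hz => ?_)
      exact (Finset.mem_filter.1 hz).2.2
    · rw [Finset.sum_eq_zero fun z _ => if_neg fun hh => hc hh.1]
      positivity
  have e1 : ∑ z ∈ X, ∑ W, mu X A I D z W * (Real.log 2 / 4 * W.card -
      (W.card * Real.log 2 - Real.log (cl X A I W z).card) - Real.log 2 / 4 * a -
        Fintype.card α * (if b < I.card then 1 else 0)) =
      Real.log 2 / 4 * (∑ z ∈ X, ∑ W, mu X A I D z W * (W.card : ℝ)) -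
      ∑ z ∈ X, ∑ W, mu X A I D z W * (W.card * Real.log 2 - Real.log (cl X A I W z).card) -
      ∑ z ∈ X, ∑ W, mu X A I D z W * (Real.log 2 / 4 * a +
        Fintype.card α * (if b < I.card then 1 else 0)) := by
    simp only [Finset.mul_sum, ← Finset.sum_sub_distrib]
    exact Finset.sum_congr rfl fun z _ => Finset.sum_congr rfl fun W _ => by ring
  rw [e1, h3] at h1
  simp only [← Finset.mul_sum, Finset.sum_add_distrib] at h1
  rw [h3] at h1
  have h5 := mul_le_mul_of_nonneg_left h4 (Nat.cast_nonneg (α := ℝ) (Fintype.card α))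
  linarith

end

theorem extract {Γ α J : Type} [Fintype α] [DecidableEq α] [Fintype J] [DecidableEq J]
    (X : Finset (Γ × (α → Bool))) (A : J → Γ × (α → Bool) → Finset α) (hX : X.Nonempty)
    {q p ub : ℝ} (hq0 : 0 ≤ q) (hq1 : q ≤ 1) (hp0 : 0 < p) (hp1 : p ≤ 1) (hub0 : 0 < ub)
    (hub1 : ub ≤ 1) (hu : ub * (p / 2) * Fintype.card α * X.card ≤ UU X A q (p / 2))
    (hI : PH X A q p - 2 * PH X A q (p / 2) ≤ ub * p * Fintype.card α * X.card / 40)
    (hl : Real.exp (-(q * Fintype.card J)) ≤ ub * p / 40)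
    (hn : 60 * Real.exp (-(ub * p * Fintype.card α / 5)) < ub * p) :
    ∃ (I : Finset J) (W : Finset α), (I.card : ℝ) ≤ 4 * q * Fintype.card J ∧
      ub * p * Fintype.card α / 2 < W.card ∧ (W.card : ℝ) ≤ 4 * p * Fintype.card α ∧
      (ub / 20) ^ W.card * X.card < (GG X A I W).card := by
  by_contra hc
  have hc' : ∀ (I : Finset J) (W : Finset α), (I.card : ℝ) ≤ 4 * q * Fintype.card J →
      ub * p * Fintype.card α / 2 < W.card → (W.card : ℝ) ≤ 4 * p * Fintype.card α →
      ((GG X A I W).card : ℝ) ≤ (ub / 20) ^ W.card * X.card :=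
    fun I W h1 h2 h3 => not_lt.1 fun h4 => hc ⟨I, W, h1, h2, h3, h4⟩
  have hn0 : (0 : ℝ) ≤ Fintype.card α := Nat.cast_nonneg _
  have hN : (0 : ℝ) < X.card := by exact_mod_cast hX.card_pos
  have hc1 : ub * p ≤ 1 := by nlinarith
  have hc0 : 0 < ub * p := mul_pos hub0 hp0
  have hn1 : (0 : ℝ) < Fintype.card α := by
    refine hn0.lt_of_ne' fun h => ?_
    rw [h] at hn
    norm_num at hn
    linarith
  have h1 := Ex_mono hq0 hq1 fun I => Ex_mono hp0.le hp1 fun D =>
    aextract_ID X A I D (by positivity) (by positivity) (hc' I)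
  simp only [Ex_sub, Ex_add, Ex_mul, Ex_const, Ex_sum, Ex_subset] at h1
  have h2 := card_avg X A q p
  simp only [Ex_sum] at h2
  rw [h2, II_avg] at h1
  have h3 := (Ex_tail (α := J) hq0 hq1).trans hl
  have h4 := Ex_tail (α := α) hp0.le hp1
  have h5 := sum_pow_tail (α := α) (ub / 20 * p) (ub * p * Fintype.card α / 2) (by positivity)
  have h6 : ∑ W : Finset α, (if ub * p * Fintype.card α / 2 < W.card then (ub / 20) ^ W.card
      else 0) * p ^ W.card = ∑ W : Finset α, (if ub * p * Fintype.card α / 2 < W.card then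
        (ub / 20 * p) ^ W.card else 0) :=
    Finset.sum_congr rfl fun W _ => by split_ifs <;> simp [mul_pow]
  rw [h6] at h1
  have hL := Real.log_two_gt_d9
  have hcn : 0 < ub * p * Fintype.card α := mul_pos hc0 hn1
  have h7 : Real.exp (-(p * Fintype.card α)) ≤ Real.exp (-(ub * p * Fintype.card α / 5)) := by
    refine Real.exp_le_exp.2 ?_
    have := mul_le_mul_of_nonneg_right hub1 (mul_pos hp0 hn1).le
    nlinarith
  have h8 : Real.exp (2 * (ub / 20 * p) * Fintype.card α -
      ub * p * Fintype.card α / 2 * Real.log 2) ≤ Real.exp (-(ub * p * Fintype.card α / 5)) := by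
    refine Real.exp_le_exp.2 ?_
    nlinarith
  have hnN : (0 : ℝ) < Fintype.card α * X.card := mul_pos hn1 hN
  have h9 := mul_le_mul_of_nonneg_left (add_le_add (h4.trans h7) (h5.trans h8)) hnN.le
  have h10 := mul_le_mul_of_nonneg_left h3 hnN.le
  have h11 := mul_le_mul_of_nonneg_left hu (show 0 ≤ Real.log 2 by linarith)
  have h12 := mul_lt_mul_of_pos_left hn hnN
  have h13 := mul_le_mul_of_nonneg_right hL.le (mul_pos hcn hN).le
  nlinarith

end Pool.Agent.Work.MP_807b32_lc.Lin
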