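import Pool.Agent.Work.MP_807b32_lc.Lin.AExtract

/-!
The free window theorem.
-/

namespace Pool.Agent.Work.MP_807b32_lc.Lin

open Finset

/-- The exponents of the inclusion probabilities. -/
noncomputable def tau (K : ℕ) : ℕ → ℝ
  | 0 => 1 / (40 * K)
  | t + 1 => tau K t * (1 + 1 / (200 * (t + 2)))

theorem tau_pos {K : ℕ} (hK : 1 ≤ K) (t : ℕ) : 0 < tau K t := by
  induction t with
  | zero =>
    have : (0 : ℝ) < K := by exact_mod_cast hK
    simp only [tau]
    positivity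
  | succ t ih =>
    simp only [tau]
    positivity

theorem tau_grow {K : ℕ} (hK : 1 ≤ K) (t : ℕ) :
    tau K 0 ^ 200 * ((t + 2) / 2) ≤ tau K t ^ 200 := by
  induction t with
  | zero => norm_num
  | succ t ih =>
    have h0 := tau_pos hK 0
    have ht := tau_pos hK t
    have h1 : (1 : ℝ) + (200 : ℕ) * (1 / (200 * (t + 2))) ≤ (1 + 1 / (200 * (t + 2))) ^ 200 :=
      one_add_mul_le_pow (le_trans (by norm_num) (by positivity : (0 : ℝ) ≤ _)) 200
    have h2 : (1 : ℝ) + (200 : ℕ) * (1 / (200 * (t + 2))) = (t + 3) / (t + 2) := by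
      push_cast
      field_simp
      ring
    rw [h2] at h1
    have e : tau K (t + 1) ^ 200 = tau K t ^ 200 * (1 + 1 / (200 * (t + 2))) ^ 200 := by
      rw [tau, mul_pow]
    rw [e]
    calc tau K 0 ^ 200 * ((((t + 1 : ℕ) : ℝ) + 2) / 2)
        = tau K 0 ^ 200 * ((t + 2) / 2) * ((t + 3) / (t + 2)) := by
          push_cast
          field_simp
          ring
      _ ≤ tau K t ^ 200 * (1 + 1 / (200 * (t + 2))) ^ 200 :=
          mul_le_mul ih h1 (by positivity) (by positivity)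

theorem tau_big {K : ℕ} (hK : 1 ≤ K) :
    ∃ s : ℕ, 512 * (40 * (s + 2)) * K * Real.exp (-tau K s) ≤ 1 := by
  have h0 := tau_pos hK 0
  have hK0 : (0 : ℝ) < K := by exact_mod_cast hK
  obtain ⟨F, hF, hF0⟩ : ∃ F : ℝ, (∀ x : ℝ, 0 ≤ x → x ^ 400 / F ≤ Real.exp x) ∧ 0 < F :=
    ⟨_, fun x hx => Real.pow_div_factorial_le_exp x hx 400,
      by exact_mod_cast Nat.factorial_pos 400⟩
  obtain ⟨a, ha, ha0⟩ : ∃ a : ℝ, a = tau K 0 ^ 200 ∧ 0 < a := ⟨_, rfl, by positivity⟩
  obtain ⟨s, hs⟩ := exists_nat_ge (81920 * K * F / a ^ 2)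
  refine ⟨s, ?_⟩
  have h1 := tau_grow hK s
  rw [← ha] at h1
  have h2 := hF (tau K s) (tau_pos hK s).le
  have h3 : (a * ((s + 2) / 2)) ^ 2 ≤ tau K s ^ 400 := by
    rw [show 400 = 200 * 2 by norm_num, pow_mul]
    exact pow_le_pow_left₀ (by positivity) h1 2
  rw [Real.exp_neg, ← div_eq_mul_inv, div_le_one (Real.exp_pos _)]
  refine le_trans ?_ h2
  rw [le_div_iff₀ hF0]
  refine le_trans ?_ h3
  rw [div_le_iff₀ (by positivity)] at hs
  have h4 : (0 : ℝ) ≤ s := Nat.cast_nonneg _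
  have h5 : 0 < a ^ 2 := by positivity
  nlinarith

theorem free_chain {Γ α J : Type} [Fintype α] [DecidableEq α] [Fintype J] [DecidableEq J]
    (X : Finset (Γ × (α → Bool))) (A : J → Γ × (α → Bool) → Finset α) (hG : Good X A)
    {K : ℕ} (hK : 1 ≤ K) (s : ℕ) (P : ℝ) (hP0 : 0 < P) (hP1 : 2 ^ (s + 1) * P ≤ 1)
    (hb : 1 / 100 * P * Fintype.card α * X.card ≤ UU X A (Real.exp (-tau K 0)) P)
    (hI : ∀ t ≤ s, PH X A (Real.exp (-tau K t)) (2 ^ (t + 1) * P) -
        2 * PH X A (Real.exp (-tau K t)) (2 ^ (t + 1) * P / 2) ≤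
      (1 / 100) ^ (s + 1) * (2 ^ (t + 1) * P) * Fintype.card α * X.card / 40) :
    ∀ t ≤ s, (1 / 100) ^ (t + 1) * (2 ^ t * P) * Fintype.card α * X.card ≤
      UU X A (Real.exp (-tau K t)) (2 ^ t * P) := by
  intro t
  induction t with
  | zero => intro _; simpa using hb
  | succ t ih =>
    intro ht
    have ih := ih (by omega)
    have hτ := tau_pos hK t
    have hp1 : 2 ^ (t + 1) * P ≤ 1 :=
      le_trans (mul_le_mul_of_nonneg_right (pow_le_pow_right₀ (by norm_num) (by omega)) hP0.le) hP1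
    have hd : tau K (t + 1) - tau K t = tau K t / (200 * (t + 2)) := by
      rw [tau]; ring
    have hd0 : 0 ≤ tau K (t + 1) - tau K t := by rw [hd]; positivity
    set σ := 1 - Real.exp (-(tau K (t + 1) - tau K t)) with hσ
    have hσ0 : 0 ≤ σ := by
      have := Real.exp_le_one_iff.mpr (neg_nonpos.mpr hd0)
      linarith
    have hσ1 : σ ≤ 1 := by
      have := Real.exp_pos (-(tau K (t + 1) - tau K t))
      linarith
    have hσ2 : σ ≤ tau K t / (200 * (t + 2)) := by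
      have := Real.add_one_le_exp (-(tau K (t + 1) - tau K t))
      linarith
    have hq : Real.exp (-tau K t) * (1 - σ) = Real.exp (-tau K (t + 1)) := by
      rw [hσ, sub_sub_cancel, ← Real.exp_add]
      congr 1
      ring
    have hst := step X A hG (q := Real.exp (-tau K t)) (p := 2 ^ (t + 1) * P) (σ := σ)
      (y := (5 * t + 10) / tau K t) (ε := Real.exp (-(5 * t + 10))) (Real.exp_pos _).le
      (Real.exp_le_one_iff.mpr (by linarith)) (by positivity) hp1 hσ0 hσ1 (by positivity)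
      (Real.exp_pos _).le (by
        intro m hm
        rw [← Real.exp_nat_mul]
        apply Real.exp_le_exp.mpr
        rw [div_lt_iff₀ hτ] at hm
        linarith)
    rw [hq] at hst
    have hI' := hI t (by omega)
    have e2 : (2 : ℝ) ^ (t + 1) * P / 2 = 2 ^ t * P := by ring
    rw [e2] at hst hI'
    have hσy : σ * ((5 * t + 10) / tau K t) ≤ 1 / 40 := by
      calc σ * ((5 * t + 10) / tau K t) ≤ tau K t / (200 * (t + 2)) * ((5 * t + 10) / tau K t) :=
            mul_le_mul_of_nonneg_right hσ2 (by positivity)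
        _ = 1 / 40 := by field_simp; ring
    have hε : 4 * Real.exp (-(5 * (t : ℝ) + 10)) ≤ (1 / 100) ^ (t + 1) / 40 := by
      have a1 : (128 : ℝ) ≤ Real.exp 5 := by
        have b1 : (2.7 : ℝ) ^ 5 ≤ Real.exp 1 ^ 5 :=
          pow_le_pow_left₀ (by norm_num) (by linarith [Real.exp_one_gt_d9]) 5
        rw [← Real.exp_nat_mul] at b1
        norm_num at b1
        linarith
      have a2 : Real.exp (-5) ≤ 1 / 128 := by
        rw [Real.exp_neg, one_div]
        exact inv_anti₀ (by norm_num) a1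
      have a3 : Real.exp (-(5 * (t : ℝ) + 10)) = Real.exp (-5) ^ t * Real.exp (-5) ^ 2 := by
        rw [← pow_add, ← Real.exp_nat_mul]
        congr 1
        push_cast
        ring
      have a4 : Real.exp (-5) ^ t ≤ (1 / 100) ^ t :=
        pow_le_pow_left₀ (Real.exp_pos _).le (by linarith) t
      have a5 : Real.exp (-5) ^ 2 ≤ (1 / 128) ^ 2 := pow_le_pow_left₀ (Real.exp_pos _).le a2 2
      have a6 : Real.exp (-5) ^ t * Real.exp (-5) ^ 2 ≤ (1 / 100) ^ t * (1 / 128) ^ 2 :=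
        mul_le_mul a4 a5 (by positivity) (by positivity)
      have a7 : (0 : ℝ) < (1 / 100) ^ t := by positivity
      rw [a3, pow_succ (1 / 100 : ℝ) t]
      nlinarith
    have hub : ((1 : ℝ) / 100) ^ (s + 1) ≤ (1 / 100) ^ (t + 1) :=
      pow_le_pow_of_le_one (by norm_num) (by norm_num) (by omega)
    set u : ℝ := (1 / 100) ^ (t + 1) with hu
    have hu0 : 0 < u := by positivity
    set m : ℝ := 2 ^ t * P * Fintype.card α * X.card with hm
    have hm0 : 0 ≤ m := by positivity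
    have f0 : u * m ≤ UU X A (Real.exp (-tau K t)) (2 ^ t * P) := by
      rw [hm]; linarith
    have f1 : 1 / 5 * (u * m) ≤ (2 / 5 - 8 * σ * ((5 * t + 10) / tau K t)) *
        UU X A (Real.exp (-tau K t)) (2 ^ t * P) :=
      mul_le_mul (by linarith) f0 (by positivity) (by linarith)
    have f2 : 4 * (2 ^ (t + 1) * P) * Fintype.card α * Real.exp (-(5 * (t : ℝ) + 10)) * X.card ≤
        u * m / 20 := by
      have := mul_le_mul_of_nonneg_right hε hm0
      calc _ = 2 * (4 * Real.exp (-(5 * (t : ℝ) + 10)) * m) := by rw [hm]; ring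
        _ ≤ _ := by linarith
    have f3 : (1 / 100) ^ (s + 1) * (2 ^ (t + 1) * P) * Fintype.card α * X.card / 40 ≤
        u * m / 20 := by
      have := mul_le_mul_of_nonneg_right hub hm0
      calc _ = (1 / 100) ^ (s + 1) * m / 20 := by rw [hm]; ring
        _ ≤ _ := by linarith
    have f4 : ((1 : ℝ) / 100) ^ (t + 1 + 1) * (2 ^ (t + 1) * P) * Fintype.card α * X.card =
        u * m / 50 := by
      rw [hm, hu]; ring
    rw [f4]
    linarith

theorem free_pigeon (s R : ℕ) (hR : 0 < R) (a : ℕ → ℕ → ℝ) (b : ℝ)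
    (h0 : ∀ t ≤ s, ∀ k ≤ s + R, 0 ≤ a t k) (h1 : ∀ t ≤ s, ∀ k ≤ s + R, a t k ≤ b)
    (hm : ∀ t ≤ s, ∀ k < s + R, a t k ≤ a t (k + 1)) :
    ∃ ρ < R, ∀ t ≤ s, a t (t + ρ + 1) - a t (t + ρ) ≤ (s + 1) * b / R := by
  have hR' : (0 : ℝ) < R := by exact_mod_cast hR
  have h2 : ∑ ρ ∈ range R, ∑ t ∈ range (s + 1), (a t (t + ρ + 1) - a t (t + ρ)) ≤
      ∑ _ρ ∈ range R, (s + 1) * b / R := by
    rw [Finset.sum_comm]
    have : ∀ t ∈ range (s + 1), ∑ ρ ∈ range R, (a t (t + ρ + 1) - a t (t + ρ)) ≤ b := by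
      intro t ht
      have ht' : t ≤ s := Nat.lt_succ_iff.mp (Finset.mem_range.mp ht)
      have e := Finset.sum_range_sub (fun ρ => a t (t + ρ)) R
      simp only [← add_assoc, add_zero] at e
      rw [e]
      have := h0 t ht' t (by omega)
      have := h1 t ht' (t + R) (by omega)
      linarith
    refine (Finset.sum_le_sum this).trans (le_of_eq ?_)
    simp only [Finset.sum_const, Finset.card_range, nsmul_eq_mul]
    push_cast
    field_simp
  obtain ⟨ρ, hρ, h3⟩ := Finset.exists_le_of_sum_le ⟨0, Finset.mem_range.mpr hR⟩ h2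
  have hρ' := Finset.mem_range.mp hρ
  refine ⟨ρ, hρ', fun t ht => le_trans ?_ h3⟩
  apply Finset.single_le_sum (f := fun t => a t (t + ρ + 1) - a t (t + ρ))
  · intro t' ht'
    have ht'' : t' ≤ s := Nat.lt_succ_iff.mp (Finset.mem_range.mp ht')
    have := hm t' ht'' (t' + ρ) (by omega)
    linarith
  · exact Finset.mem_range.mpr (by omega)

theorem free_final (s m : ℕ) (O x g Δ : ℝ) (hO : 0 < O) (hx : O * Real.exp (-Δ) ≤ x)
    (hΔ : Δ ≤ m / 10) (hg : ((1 / 100) ^ (s + 1) / 20) ^ m * x < g) :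
    4 ^ m * O ^ 4 < 2 ^ (40 * (s + 2) * m) * g ^ 4 := by
  set u : ℝ := (1 / 100) ^ (s + 1) with hu
  have hu0 : 0 < u := by positivity
  have h1 : (9 / 10 : ℝ) ^ m ≤ Real.exp (-Δ) := by
    have a : (9 / 10 : ℝ) ≤ Real.exp (-(1 / 10)) := by
      linarith [Real.add_one_le_exp (-(1 / 10) : ℝ)]
    have b := pow_le_pow_left₀ (by norm_num) a m
    rw [← Real.exp_nat_mul] at b
    exact b.trans (Real.exp_le_exp.mpr (by linarith))
  have h2 : (u / 20 * (9 / 10)) ^ m * O < g := by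
    refine lt_of_le_of_lt ?_ hg
    rw [mul_pow, mul_assoc]
    apply mul_le_mul_of_nonneg_left _ (by positivity)
    calc (9 / 10 : ℝ) ^ m * O ≤ Real.exp (-Δ) * O := mul_le_mul_of_nonneg_right h1 hO.le
      _ ≤ x := by rw [mul_comm]; exact hx
  have h3 : ((u / 20 * (9 / 10)) ^ m * O) ^ 4 < g ^ 4 :=
    pow_lt_pow_left₀ h2 (by positivity) (by norm_num)
  have h4 : (4 : ℝ) ≤ 2 ^ (40 * (s + 2)) * (u / 20 * (9 / 10)) ^ 4 := by
    have a : (1 : ℝ) ≤ (2 ^ 40 * (1 / 100) ^ 4) ^ (s + 1) := one_le_pow₀ (by norm_num)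
    have b : (2 : ℝ) ^ (40 * (s + 2)) * (u / 20 * (9 / 10)) ^ 4 =
        (2 ^ 40 * (1 / 100) ^ 4) ^ (s + 1) * (2 ^ 40 * (9 / 200) ^ 4) := by
      rw [hu, mul_pow ((2 : ℝ) ^ 40), ← pow_mul, ← pow_mul, mul_comm 4 (s + 1), pow_mul (1 / 100 : ℝ),
        show 40 * (s + 2) = 40 * (s + 1) + 40 by ring, pow_add]
      ring
    rw [b]
    have c : (4 : ℝ) ≤ 2 ^ 40 * (9 / 200) ^ 4 := by norm_num
    nlinarith
  have h5 := pow_le_pow_left₀ (by norm_num) h4 m
  calc (4 : ℝ) ^ m * O ^ 4 ≤ (2 ^ (40 * (s + 2)) * (u / 20 * (9 / 10)) ^ 4) ^ m * O ^ 4 :=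
        mul_le_mul_of_nonneg_right h5 (by positivity)
    _ = 2 ^ (40 * (s + 2) * m) * ((u / 20 * (9 / 10)) ^ m * O) ^ 4 := by
        rw [mul_pow, mul_pow ((u / 20 * (9 / 10)) ^ m), ← pow_mul, ← pow_mul, ← pow_mul,
          mul_comm 4 m, mul_assoc]
    _ < _ := mul_lt_mul_of_pos_left h3 (by positivity)

theorem free (K : ℕ) (hK : 1 ≤ K) : ∃ (r l n₀ : ℕ) (c q : ℝ), 1 ≤ r ∧ 0 < c ∧ 0 ≤ q ∧
    512 * r * K * q ≤ 1 ∧
    ∀ (Γ α : Type) [Fintype Γ] [Nonempty Γ] [Fintype α] [DecidableEq α], n₀ ≤ Fintype.card α →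
      ∀ (X : Finset (Γ × (α → Bool))) (A : Fin (l + 1) → Γ × (α → Bool) → Finset α), Good X A →
        (∀ z ∈ X, ∑ j, ((A j z).card : ℝ) ≤ K * Fintype.card α) →
        (Fintype.card Γ : ℝ) * 2 ^ Fintype.card α * Real.exp (-(c * Fintype.card α)) ≤ X.card →
        ∃ (I : Finset (Fin (l + 1))) (W : Finset α), (I.card : ℝ) ≤ 4 * q * (l + 1) ∧
          8 ≤ W.card ∧ (2 * r ^ 2) ^ 4 ≤ 2 ^ W.card ∧ 16 * r * W.card ≤ Fintype.card α ∧
          4 ^ W.card * (Fintype.card Γ * 2 ^ Fintype.card α) ^ 4 <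
            2 ^ (r * W.card) * (GG X A I W).card ^ 4 := by
  obtain ⟨s, hs⟩ := tau_big hK
  obtain ⟨r, hr⟩ : ∃ r : ℕ, r = 40 * (s + 2) := ⟨_, rfl⟩
  obtain ⟨R, hR⟩ : ∃ R : ℕ, R = 40 * (s + 1) * 100 ^ (s + 1) := ⟨_, rfl⟩
  have hR0 : 0 < R := by rw [hR]; positivity
  have hr0 : (0 : ℝ) < r := by rw [hr]; positivity
  have hr1 : 1 ≤ r := by omega
  have hr1' : (1 : ℝ) ≤ r := by exact_mod_cast hr1
  obtain ⟨u, hu⟩ : ∃ u : ℝ, u = (1 / 100) ^ (s + 1) := ⟨_, rfl⟩
  have hu0 : 0 < u := by rw [hu]; positivity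
  have hu1 : u ≤ 1 := by rw [hu]; exact pow_le_one₀ (by norm_num) (by norm_num)
  obtain ⟨P₀, hP₀⟩ : ∃ P₀ : ℝ, P₀ = 1 / (64 * r * 2 ^ (s + R)) := ⟨_, rfl⟩
  have hP0 : 0 < P₀ := by rw [hP₀]; positivity
  have hPk : ∀ k ≤ s + R, 64 * r * (2 ^ k * P₀) ≤ 1 := by
    intro k hk
    have : (2 : ℝ) ^ k ≤ 2 ^ (s + R) := pow_le_pow_right₀ (by norm_num) hk
    rw [hP₀, mul_one_div, ← mul_div_assoc, div_le_one (by positivity)]
    exact mul_le_mul_of_nonneg_left this (by positivity)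
  have hPk1 : ∀ k ≤ s + R, 2 ^ k * P₀ ≤ 1 := by
    intro k hk
    have h1 := hPk k hk
    have h2 : 0 ≤ 2 ^ k * P₀ := by positivity
    nlinarith
  obtain ⟨q, hq⟩ : ∃ q : ℝ, q = Real.exp (-tau K s) := ⟨_, rfl⟩
  have hq0 : 0 < q := by rw [hq]; exact Real.exp_pos _
  have hqt : ∀ t, Real.exp (-tau K t) ≤ 1 := fun t =>
    Real.exp_le_one_iff.mpr (by linarith [tau_pos hK t])
  obtain ⟨w, hw⟩ : ∃ w : ℝ, w = u * P₀ := ⟨_, rfl⟩
  have hw0 : 0 < w := by rw [hw]; positivity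
  obtain ⟨l, hl⟩ := exists_nat_ge (40 / w / q)
  obtain ⟨n₀, hn₀⟩ := exists_nat_gt (300 / w ^ 2 + 2 * (8 + (2 * r ^ 2) ^ 4) / w)
  refine ⟨r, l, n₀, w / 20, q, hr1, by positivity, hq0.le, ?_, ?_⟩
  · rw [hq, hr]
    push_cast
    exact hs
  intro Γ α _ _ _ _ hn X A hG hA hX
  set n : ℝ := (Fintype.card α : ℝ) with hndef
  have hn' : 300 / w ^ 2 + 2 * (8 + (2 * r ^ 2) ^ 4) / w < n :=
    lt_of_lt_of_le hn₀ (by rw [hndef]; exact_mod_cast hn)
  have hnA : 300 / w ^ 2 < n := lt_of_le_of_lt (le_add_of_nonneg_right (by positivity)) hn'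
  have hnB : 2 * (8 + (2 * r ^ 2) ^ 4) / w < n :=
    lt_of_le_of_lt (le_add_of_nonneg_left (by positivity)) hn'
  have hn0 : 0 < n := lt_of_le_of_lt (by positivity) hnA
  have hΓ : (0 : ℝ) < Fintype.card Γ := by exact_mod_cast Fintype.card_pos
  have hx0 : (0 : ℝ) < X.card := lt_of_lt_of_le (by positivity) hX
  have hXne : X.Nonempty := Finset.card_pos.mp (by exact_mod_cast hx0)
  obtain ⟨ρ, hρ, hpig⟩ := free_pigeon s R hR0
    (fun t k => PH X A (Real.exp (-tau K t)) (2 ^ k * P₀) / (2 ^ k * P₀)) (n * X.card)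
    (fun t _ k hk => div_nonneg
      (PH_nonneg X A (Real.exp_pos _).le (hqt t) (by positivity) (hPk1 k hk)) (by positivity))
    (fun t _ k hk => by
      rw [div_le_iff₀ (by positivity)]
      have := PH_le X A (Real.exp_pos _).le (hqt t) (by positivity) (hPk1 k hk)
      linarith)
    (fun t _ k hk => by
      have := PH_half_le X A (Real.exp_pos _).le (hqt t) (by positivity) (hPk1 (k + 1) hk)
      rw [show (2 : ℝ) ^ (k + 1) * P₀ / 2 = 2 ^ k * P₀ by ring] at this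
      rw [div_le_div_iff₀ (by positivity) (by positivity)]
      have h2 : 0 < 2 ^ k * P₀ := by positivity
      calc _ = 2 * PH X A (Real.exp (-tau K t)) (2 ^ k * P₀) * (2 ^ k * P₀) := by ring
        _ ≤ _ := mul_le_mul_of_nonneg_right this h2.le)
  set P : ℝ := 2 ^ ρ * P₀ with hP
  have hPpos : 0 < P := by positivity
  have hPP : P₀ ≤ P := le_mul_of_one_le_left hP0.le (one_le_pow₀ (by norm_num))
  have hPe : ∀ k, (2 : ℝ) ^ k * P = 2 ^ (k + ρ) * P₀ := fun k => by rw [hP]; ring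
  have hI : ∀ t ≤ s, PH X A (Real.exp (-tau K t)) (2 ^ (t + 1) * P) -
        2 * PH X A (Real.exp (-tau K t)) (2 ^ (t + 1) * P / 2) ≤
      (1 / 100) ^ (s + 1) * (2 ^ (t + 1) * P) * n * X.card / 40 := by
    intro t ht
    have h1 := hpig t ht
    have e1 : (2 : ℝ) ^ (t + ρ + 1) * P₀ = 2 ^ (t + 1) * P := by rw [hP]; ring
    have e2 : (2 : ℝ) ^ (t + ρ) * P₀ = 2 ^ (t + 1) * P / 2 := by rw [hP]; ring
    simp only [e1, e2] at h1
    have h2 : (0 : ℝ) < 2 ^ (t + 1) * P := by positivity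
    have e3 : ((s : ℝ) + 1) * (n * X.card) / R = (1 / 100) ^ (s + 1) * n * X.card / 40 := by
      rw [hR]
      push_cast
      rw [one_div, inv_pow]
      field_simp
    rw [e3] at h1
    have h3 := mul_le_mul_of_nonneg_right h1 h2.le
    have e4 : ∀ a b : ℝ, (a / (2 ^ (t + 1) * P) - b / (2 ^ (t + 1) * P / 2)) * (2 ^ (t + 1) * P) =
        a - 2 * b := fun a b => by field_simp
    rw [e4] at h3
    linarith
  have hp1 : 2 ^ (s + 1) * P ≤ 1 := by rw [hPe]; exact hPk1 _ (by omega)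
  have hP1 : P ≤ 1 := by rw [hP]; exact hPk1 _ (by omega)
  have hb : 1 / 100 * P * n * X.card ≤ UU X A (Real.exp (-tau K 0)) P := by
    have h1 := base_avg X A hG hXne K hA _ hX (Real.exp_pos (-tau K 0)).le (hqt 0) hPpos.le hP1
    have hK0 : (0 : ℝ) < K := by exact_mod_cast hK
    have h2 : (1 - Real.exp (-tau K 0)) * K ≤ 1 / 40 := by
      have a := Real.add_one_le_exp (-tau K 0)
      have b : tau K 0 * K = 1 / 40 := by simp only [tau]; field_simp
      nlinarith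
    have h3 : w ≤ P := by rw [hw]; nlinarith
    have h4 : P * n / 20 ≤ P * n / 5 - 4 * (1 - Real.exp (-tau K 0)) * K * P * n - w / 20 * n := by
      have a := mul_le_mul_of_nonneg_right h2 (by positivity : 0 ≤ P * n)
      have b := mul_le_mul_of_nonneg_right h3 hn0.le
      nlinarith
    have h5 := mul_le_mul_of_nonneg_left h4 hx0.le
    linarith
  have hch := free_chain X A hG hK s P hPpos hp1 hb hI s le_rfl
  set p : ℝ := 2 ^ (s + 1) * P with hp
  have hp0 : 0 < p := by positivity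
  have hpP : P₀ ≤ p := hPP.trans (le_mul_of_one_le_left hPpos.le (one_le_pow₀ (by norm_num)))
  have hwp : w ≤ u * p := by rw [hw]; exact mul_le_mul_of_nonneg_left hpP hu0.le
  have hexp : ∀ x : ℝ, 0 < x → Real.exp (-x) ≤ 1 / x := by
    intro x hx
    rw [Real.exp_neg, one_div]
    exact inv_anti₀ hx (by linarith [Real.add_one_le_exp x])
  obtain ⟨I, W, h1, h2, h3, h4⟩ := extract X A hXne (q := q) (p := p) (ub := u) hq0.le
    (by rw [hq]; exact hqt s) hp0 hp1 hu0 hu1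
    (by rw [hq, hu, show p / 2 = 2 ^ s * P by rw [hp]; ring]; exact hch)
    (by rw [hq, hu]; exact hI s le_rfl)
    (by
      simp only [Fintype.card_fin]
      push_cast
      refine (hexp _ (by positivity)).trans ?_
      rw [div_le_iff₀ hq0, div_le_iff₀ hw0] at hl
      rw [div_le_div_iff₀ (by positivity) (by norm_num)]
      have a : 0 ≤ q * ((l : ℝ) + 1) := by positivity
      have b := mul_le_mul_of_nonneg_right hwp a
      nlinarith)
    (by
      have a := hexp (u * p * n / 5) (by positivity)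
      have b : 300 < w ^ 2 * n := by
        rw [div_lt_iff₀ (by positivity)] at hnA
        linarith
      have c : w ^ 2 ≤ (u * p) ^ 2 := pow_le_pow_left₀ hw0.le hwp 2
      have d : 60 * (1 / (u * p * n / 5)) < u * p := by
        rw [mul_one_div, div_lt_iff₀ (by positivity)]
        nlinarith
      linarith)
  have hm : (8 : ℝ) + (2 * r ^ 2) ^ 4 < W.card := by
    rw [div_lt_iff₀ hw0] at hnB
    have := mul_le_mul_of_nonneg_right hwp hn0.le
    linarith
  have hm' : 8 + (2 * r ^ 2) ^ 4 < W.card := by exact_mod_cast hm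
  refine ⟨I, W, by simpa using h1, by omega, ?_, ?_, ?_⟩
  · exact le_trans (by omega) (Nat.lt_two_pow_self (n := W.card)).le
  · have a : 64 * r * p ≤ 1 := by rw [hp, hPe]; exact hPk _ (by omega)
    have b : (16 : ℝ) * r * W.card ≤ n := by
      have c := mul_le_mul_of_nonneg_left h3 (by positivity : (0 : ℝ) ≤ 16 * r)
      have d := mul_le_mul_of_nonneg_right a hn0.le
      nlinarith
    rw [hndef] at b
    exact_mod_cast b
  · have a := free_final s W.card (Fintype.card Γ * 2 ^ Fintype.card α) X.card (GG X A I W).card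
      (w / 20 * n) (by positivity) hX (by
        have := mul_le_mul_of_nonneg_right hwp hn0.le
        linarith) (by rw [← hu]; exact h4)
    rw [← hr] at a
    exact_mod_cast a

end Pool.Agent.Work.MP_807b32_lc.Lin
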