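import Pool.Agent.Work.MP_807b32_lc.Lin.APlant
import Pool.Agent.Work.MP_807b32_lc.Sem.Swap

/-!
Passing from a set `I` of hidden segments to a smaller set `I'`.

Plan.
* `inner_kraft`: the record of `z ∈ cl X A I W x` is `rec z : α → Option Bool`,
  `rec z i = if i ∈ W ∧ i ∈ un A (I \ I') z then some (z.2 i) else none`. Two points `z, z'` of the
  class with equal records agree off `W` and on `W ∩ un A (I \ I') z`, so `hG` gives
  `A j z = A j z'` for `j ∈ I \ I'`, hence `rel A I' D z z'` and `cl X A I' D z = cl X A I' D z'`.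
  In the group of a record `ϱ` with a member `z₀`, `bet X A I' D z i = b i (z.2 i)` where `b i c` is
  the fraction of `cl X A I' D z₀` with value `≠ c` at `i`, `b i true + b i false = 1`. The map
  `z ↦ z.2` is injective on the class, so the group sum is at most `∏ i, ∑ c, u i c` with
  `u i c = if i ∈ W then (if ϱ i = some c then 1 / 8 else if ϱ i = none then
  3 / 4 * (3 / 4 * (1 - b i c) + 1 / 8) else 0) else (if c = x.2 i then 1 else 0)`
  (`Finset.prod_univ_sum`). Summing over the records supported in `W` gives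
  `∏ i ∈ W, (1 / 8 + 1 / 8 + 3 / 4) = 1`. One may also use
  `Pool.Agent.Work.MP_807b32_lc.Sem.kraft_record` (file `Sem/Swap.lean`) with
  `η i = if i ∈ W then 1 / 4 else 0` on the image of the class under `z ↦ z.2`.
* `coord_bound`: `log` is concave, or `log t ≥ 1 - 1 / t` and `log (21 / 16) ≥ 1 / 5`; write
  `log 2 + log (3 / 4 * (7 / 8 - 3 / 4 * b)) = log (21 / 16) + log (1 - 6 / 7 * b)`; for
  `b ≤ 1 / 2` use `log (1 - t) ≥ -t / (1 - t)`, for `b ≥ 1 / 2` use `log (1 / 7) ≥ -2`.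
* `bet_sum`: double counting.
* `inner`: `plant` with `ω = om X A I I' D`, `Real.log_prod`, `coord_bound` (and
  `log 2 + log (1 / 8) ≥ 1 / 5 - 4`), `∑ i ∈ W, bet ≤ ∑ i, bet`, `mu_sum`.
* `base`: `inner_kraft` with `I = univ`, `W = D` bounds the sum of `om` over each class of
  `rel A univ D`; there are at most `card Γ * 2 ^ (n - D.card)` classes (a class is determined by
  `z.1` and the values off `D`), so `∑ z ∈ X, om z D ≤ card Γ * 2 ^ n / 2 ^ D.card`. Then
  `log a ≤ a - 1` for `a = om z D * 2 ^ D.card * X.card / (card Γ * 2 ^ n)`.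
-/

namespace Pool.Agent.Work.MP_807b32_lc.Lin

open Finset

variable {Γ α J : Type} [Fintype α] [DecidableEq α] [Fintype J] [DecidableEq J]
  (X : Finset (Γ × (α → Bool))) (A : J → Γ × (α → Bool) → Finset α)

/-- The fraction of the class of `z` that differs from `z` at `i`. -/
noncomputable def bet (I : Finset J) (D : Finset α) (z : Γ × (α → Bool)) (i : α) : ℝ :=
  (((cl X A I D z).filter (fun x => x.2 i ≠ z.2 i)).card : ℝ) / (cl X A I D z).card

/-- The code weight. -/
noncomputable def om (I I' : Finset J) (D : Finset α) (z : Γ × (α → Bool)) (W : Finset α) : ℝ :=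
  ∏ i ∈ W, if i ∈ un A (I \ I') z then 1 / 8 else 3 / 4 * (3 / 4 * (1 - bet X A I' D z i) + 1 / 8)

omit [Fintype α] in
theorem ainner_bet (I : Finset J) (D : Finset α) (z : Γ × (α → Bool)) (i : α) :
    0 ≤ bet X A I D z i ∧ bet X A I D z i ≤ 1 :=
  ⟨by unfold bet; positivity,
    div_le_one_of_le₀ (Nat.cast_le.2 (card_filter_le _ _)) (Nat.cast_nonneg _)⟩

omit [Fintype α] in
theorem ainner_rel (hG : Good X A) {I I' : Finset J} {D W : Finset α} {x z z' : Γ × (α → Bool)}
    (hW : W ⊆ D \ un A Iᶜ x) (hz : z ∈ cl X A I W x) (hz' : z' ∈ cl X A I W x)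
    (h : ∀ i ∈ W, i ∈ un A (I \ I') z ∨ i ∈ un A (I \ I') z' → z.2 i = z'.2 i) :
    rel A I' D z z' := by
  obtain ⟨hz, r⟩ := mem_cl.1 hz
  obtain ⟨hz', r'⟩ := mem_cl.1 hz'
  have k1 : ∀ i ∉ W, z.2 i = z'.2 i := fun i hi =>
    (r.2.2 i fun h => hi (mem_sdiff.1 h).1).trans (r'.2.2 i fun h => hi (mem_sdiff.1 h).1).symm
  have k2 : ∀ i, i ∈ un A (I \ I') z ∨ i ∈ un A (I \ I') z' → z.2 i = z'.2 i := fun i hi => by
    by_cases hi' : i ∈ W
    · exact h i hi' hi
    · exact k1 i hi'
  have k0 := r.1.trans r'.1.symm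
  refine ⟨k0, fun j hj => ?_, fun i hi => ?_⟩
  · by_cases hj' : j ∈ I
    · exact hG j z hz z' hz' k0
        (fun i hi => k2 i (.inl (mem_un.2 ⟨j, mem_sdiff.2 ⟨hj', hj⟩, hi⟩)))
        fun i hi => k2 i (.inr (mem_un.2 ⟨j, mem_sdiff.2 ⟨hj', hj⟩, hi⟩))
    · exact (r.2.1 j hj').trans (r'.2.1 j hj').symm
  · by_cases hi' : i ∈ W
    · obtain ⟨h1, h2⟩ := mem_sdiff.1 (hW hi')
      obtain ⟨j, hj, h3⟩ : ∃ j ∈ I'ᶜ, i ∈ A j z' := by
        by_contra h3
        exact hi (mem_sdiff.2 ⟨h1, fun h4 => h3 (mem_un.1 h4)⟩)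
      by_cases hj' : j ∈ I
      · exact k2 i (.inr (mem_un.2 ⟨j, mem_sdiff.2 ⟨hj', mem_compl.1 hj⟩, h3⟩))
      · exact absurd (mem_un.2 ⟨j, mem_compl.2 hj', r'.2.1 j hj' ▸ h3⟩) h2
    · exact k1 i hi'

theorem inner_kraft (hG : Good X A) {I I' : Finset J} (hI : I' ⊆ I) (D W : Finset α)
    {x : Γ × (α → Bool)} (hx : x ∈ X) (hW : W ⊆ D \ un A Iᶜ x) :
    ∑ z ∈ cl X A I W x, om X A I I' D z W ≤ 1 := by
  classical
  have h1 : ∀ z ∈ cl X A I W x, (x.1, z.2) = z := fun z hz =>
    Prod.ext (mem_cl.1 hz).2.1.symm rfl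
  have key := Sem.kraft_record ((cl X A I W x).image Prod.snd) (fun i => if i ∈ W then 1 / 4 else 0)
    (fun i => by split_ifs <;> norm_num) (fun i => by split_ifs <;> norm_num)
    (fun σ i => decide (i ∈ W ∧ i ∈ un A (I \ I') (x.1, σ)))
    (fun σ i b => if i ∈ W then 3 / 4 * ((((cl X A I' D (x.1, σ)).filter
      (fun y => y.2 i = b)).card : ℝ) / (cl X A I' D (x.1, σ)).card) + 1 / 8
      else if b = x.2 i then 1 else 0)
    (fun σ i b => by split_ifs <;> positivity) (fun σ i => by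
      by_cases hi : i ∈ W
      · have e := card_filter_add_card_filter_not (s := cl X A I' D (x.1, σ))
          (fun y => y.2 i = true)
        simp only [Bool.not_eq_true] at e
        have e' := div_self_le_one ((cl X A I' D (x.1, σ)).card : ℝ)
        rw [← e, Nat.cast_add, add_div, ← Nat.cast_add, e] at e'
        simp only [if_pos hi]
        linarith
      · simp only [if_neg hi]
        cases x.2 i <;> simp) (by
      intro σ hσ σ' hσ' ht he
      obtain ⟨z, hz, rfl⟩ := mem_image.1 hσ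
      obtain ⟨z', hz', rfl⟩ := mem_image.1 hσ'
      rw [h1 z hz] at ht he ⊢
      rw [h1 z' hz'] at ht ⊢
      rw [cl_eq (ainner_rel X A hG hW hz hz' fun i hi h => he i ?_)]
      rcases h with h | h
      · exact decide_eq_true ⟨hi, h⟩
      · exact (congrFun ht i).trans (decide_eq_true ⟨hi, h⟩))
  rw [sum_image fun z hz z' hz' e => by rw [← h1 z hz, ← h1 z' hz', e]] at key
  refine le_trans (le_of_eq (sum_congr rfl fun z hz => ?_)) key
  rw [h1 z hz, ← prod_subset (subset_univ W) fun i _ hi => by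
    have := (mem_cl.1 hz).2.2.2 i fun h => hi (mem_sdiff.1 h).1
    simp [hi, this]]
  refine prod_congr rfl fun i hi => ?_
  have e := card_filter_add_card_filter_not (s := cl X A I' D z) (fun y => y.2 i = z.2 i)
  have hp : (0 : ℝ) < (cl X A I' D z).card := Nat.cast_pos.2 (cl_pos (mem_cl.1 hz).1)
  have e' : (((cl X A I' D z).filter (fun y => y.2 i = z.2 i)).card : ℝ) / (cl X A I' D z).card =
      1 - bet X A I' D z i := by
    rw [bet, eq_sub_iff_add_eq, ← add_div, ← Nat.cast_add, e, div_self hp.ne']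
  simp only [hi, true_and, decide_eq_true_eq, if_true, e']
  split_ifs <;> ring

theorem coord_bound (b : ℝ) (h0 : 0 ≤ b) (h1 : b ≤ 1) :
    1 / 5 - 5 * b ≤ Real.log 2 + Real.log (3 / 4 * (3 / 4 * (1 - b) + 1 / 8)) := by
  have hp : 0 < 3 / 4 * (3 / 4 * (1 - b) + 1 / 8) := by linarith
  have h := Real.one_sub_inv_le_log_of_pos (mul_pos two_pos hp)
  rw [Real.log_mul two_ne_zero hp.ne'] at h
  have h2 : (2 * (3 / 4 * (3 / 4 * (1 - b) + 1 / 8)))⁻¹ ≤ 4 / 5 + 5 * b := by
    rw [inv_le_iff_one_le_mul₀ (mul_pos two_pos hp)]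
    nlinarith
  linarith

theorem bet_sum (I : Finset J) (D : Finset α) :
    ∑ z ∈ X, ∑ i, bet X A I D z i = uu X A I D := by
  refine sum_congr rfl fun z _ => ?_
  simp only [bet, dif, ← sum_div, card_filter, Nat.cast_sum]
  rw [sum_comm]

omit [Fintype α] in
theorem ainner_pos (I I' : Finset J) (D : Finset α) (z : Γ × (α → Bool)) (W : Finset α) :
    ∀ i ∈ W, (0 : ℝ) < if i ∈ un A (I \ I') z then 1 / 8 else
      3 / 4 * (3 / 4 * (1 - bet X A I' D z i) + 1 / 8) := by
  intro i _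
  have := (ainner_bet X A I' D z i).2
  split_ifs <;> linarith

theorem ainner_pt (I I' : Finset J) (D : Finset α) (z : Γ × (α → Bool)) (W : Finset α) :
    (W.card : ℝ) / 5 - 4 * (W ∩ un A (I \ I') z).card - 5 * ∑ i, bet X A I' D z i ≤
      W.card * Real.log 2 + Real.log (om X A I I' D z W) := by
  have h1 : ∑ i ∈ W, bet X A I' D z i ≤ ∑ i, bet X A I' D z i :=
    sum_le_sum_of_subset_of_nonneg (subset_univ W) fun i _ _ => (ainner_bet X A I' D z i).1
  have h2 : ((W ∩ un A (I \ I') z).card : ℝ) = ∑ i ∈ W, if i ∈ un A (I \ I') z then 1 else 0 := by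
    rw [sum_boole, filter_mem_eq_inter]
  have h3 : ∑ i ∈ W, (1 / 5 - 4 * (if i ∈ un A (I \ I') z then 1 else 0) - 5 * bet X A I' D z i) ≤
      ∑ i ∈ W, (Real.log 2 + Real.log (if i ∈ un A (I \ I') z then 1 / 8 else
        3 / 4 * (3 / 4 * (1 - bet X A I' D z i) + 1 / 8))) := by
    refine sum_le_sum fun i _ => ?_
    obtain ⟨b0, b1⟩ := ainner_bet X A I' D z i
    split_ifs
    · have := Real.one_sub_inv_le_log_of_pos (x := 2 * (1 / 8)) (by norm_num)
      rw [Real.log_mul two_ne_zero (by norm_num)] at this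
      norm_num at this ⊢
      linarith
    · have := coord_bound _ b0 b1
      linarith
  rw [sum_sub_distrib, sum_sub_distrib, sum_add_distrib, ← mul_sum, ← mul_sum, ← h2, sum_const,
    sum_const, nsmul_eq_mul, nsmul_eq_mul,
    ← Real.log_prod fun i hi => (ainner_pos X A I I' D z W i hi).ne'] at h3
  unfold om
  linarith

theorem inner (hG : Good X A) {I I' : Finset J} (hI : I' ⊆ I) (D : Finset α) :
    ∑ z ∈ X, ∑ W, mu X A I D z W * ((W.card : ℝ) / 5 - 4 * (W ∩ un A (I \ I') z).card) -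
      5 * uu X A I' D ≤ II X A I D := by
  refine le_trans ?_ (plant X A I D (om X A I I' D)
    (fun z _ W => prod_pos (ainner_pos X A I I' D z W))
    fun x hx W hW => inner_kraft X A hG hI D W hx hW)
  rw [← bet_sum, mul_sum, ← sum_sub_distrib]
  refine sum_le_sum fun z hz => ?_
  rw [← one_mul (5 * _), ← mu_sum X A I D hz, sum_mul, ← sum_sub_distrib]
  refine sum_le_sum fun W _ => ?_
  rw [← mul_sub]
  exact mul_le_mul_of_nonneg_left (ainner_pt X A I I' D z W) (mu_nonneg X A I D z W)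

theorem ainner_sum [Fintype Γ] (hG : Good X A) (I' : Finset J) (D : Finset α) :
    (∑ z ∈ X, om X A univ I' D z D) * 2 ^ D.card ≤ Fintype.card Γ * 2 ^ Fintype.card α := by
  classical
  let K : Finset (Γ × (α → Bool)) :=
    univ ×ˢ Fintype.piFinset fun i => if i ∈ D then {false} else univ
  have hK : (K.card : ℝ) * 2 ^ D.card = Fintype.card Γ * 2 ^ Fintype.card α := by
    have e1 : (2 : ℝ) ^ D.card = ∏ i, if i ∈ D then 2 else 1 := by
      rw [prod_ite_mem, univ_inter, prod_const]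
    rw [card_product, Fintype.card_piFinset, card_univ, e1, Nat.cast_mul, Nat.cast_prod, mul_assoc,
      ← prod_mul_distrib, ← card_univ (α := α), ← prod_const]
    refine congrArg _ (prod_congr rfl fun i _ => ?_)
    split_ifs <;> simp
  rw [← hK, ← sum_fiberwise_of_maps_to (s := X) (t := K)
    (g := fun z => (z.1, fun i => if i ∈ D then false else z.2 i)) fun z _ => by
      simp only [K, mem_product, mem_univ, true_and, Fintype.mem_piFinset]
      intro i
      split_ifs <;> simp]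
  refine mul_le_mul_of_nonneg_right ?_ (by positivity)
  refine (sum_le_card_nsmul _ _ 1 fun p _ => ?_).trans_eq (by rw [nsmul_eq_mul, mul_one])
  rcases (X.filter fun z => (z.1, fun i => if i ∈ D then false else z.2 i) = p).eq_empty_or_nonempty
    with h | ⟨x, hx⟩
  · rw [h, sum_empty]
    exact zero_le_one
  · obtain ⟨hx', rfl⟩ := mem_filter.1 hx
    have e : un A (univ : Finset J)ᶜ x = ∅ := by rw [compl_univ, un, biUnion_empty]
    refine le_trans (sum_le_sum_of_subset_of_nonneg (fun z hz => ?_) fun z _ _ =>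
      (prod_pos (ainner_pos X A univ I' D z D)).le)
      (inner_kraft X A hG (subset_univ I') D D hx' (by rw [e, sdiff_empty]))
    obtain ⟨hz, h⟩ := mem_filter.1 hz
    refine mem_cl.2 ⟨hz, (Prod.ext_iff.1 h).1, fun j hj => absurd (mem_univ j) hj, fun i hi => ?_⟩
    rw [e, sdiff_empty] at hi
    simpa [hi] using congrFun (Prod.ext_iff.1 h).2 i

theorem base [Fintype Γ] (hG : Good X A) (hX : X.Nonempty) (I' : Finset J) (D : Finset α) (Δ : ℝ)
    (hΔ : (Fintype.card Γ : ℝ) * 2 ^ Fintype.card α * Real.exp (-Δ) ≤ X.card) :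
    (X.card : ℝ) * D.card / 5 - 4 * ∑ z ∈ X, ((D ∩ un A I'ᶜ z).card : ℝ) - 5 * uu X A I' D ≤
      X.card * Δ := by
  have h1 : ∑ z ∈ X, ((D.card : ℝ) / 5 - 4 * (D ∩ un A I'ᶜ z).card - 5 * ∑ i, bet X A I' D z i -
      Δ + 1) ≤ ∑ z ∈ X, om X A univ I' D z D * 2 ^ D.card * Real.exp (-Δ) := by
    refine sum_le_sum fun z _ => ?_
    have h2 := ainner_pt X A univ I' D z D
    have h3 := Real.add_one_le_exp (D.card * Real.log 2 + Real.log (om X A univ I' D z D) + -Δ)
    rw [Real.exp_add, Real.exp_add, Real.exp_nat_mul, Real.exp_log two_pos,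
      Real.exp_log (show 0 < om X A univ I' D z D from prod_pos (ainner_pos X A univ I' D z D)),
      mul_comm (2 ^ D.card)] at h3
    rw [compl_eq_univ_sdiff]
    linarith
  rw [← sum_mul, ← sum_mul, sum_add_distrib, sum_sub_distrib, sum_sub_distrib, sum_sub_distrib,
    ← mul_sum, ← mul_sum, bet_sum] at h1
  have h2 := mul_le_mul_of_nonneg_right (ainner_sum X A hG I' D) (Real.exp_pos (-Δ)).le
  simp only [sum_const, nsmul_eq_mul, mul_one] at h1
  linarith

end Pool.Agent.Work.MP_807b32_lc.Lin
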