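import Pool.Agent.Work.MP_807b32_lc.Lin.ABase

/-!
The planted distribution.

Plan.
* `mu_sum`: for each `B` the filtered cards sum over `W` to the card of the product
  (`Finset.card_eq_sum_card_fiberwise`), which is the denominator (`cl_pos`); then `Ex_const`.
* `mu_expect`: the same fibrewise summation with weights `g W`.
* `mu_supp`: a pair `(x, x')` has `rel A I D x z` and `rel A I D x' z` (`rel.mono`), so
  `dif x x' ⊆ D \ un A Iᶜ z`.
* `mu_card`: `dif x x'` is the disjoint union of `dif x z ⊆ D \ B` and `dif x' z ⊆ D ∩ B`.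
* `plant`: write `N D z = (cl X A I D z).card`, `n = card α`. By `mu_expect`, left side minus right
  side is the sum over `B, z ∈ X, x ∈ cl (D \ B) z, x' ∈ cl (D ∩ B) z` of `P * log (Q / P)` with
  `P = 1 / (2 ^ n * N (D \ B) z * N (D ∩ B) z)` and
  `Q = ω z W * 2 ^ W.card / (2 ^ n * N D z)`, `W = dif x x'`. Use `log a ≤ a - 1`: the sum of `P` is
  `X.card`, and the sum of `Q` is at most `X.card`: reorganise as a sum over `x ∈ X`,
  `x' ∈ cl D x`, `z ∈ cl W x` (`z` agrees with `x` or `x'` at each coordinate; `N D z = N D x`), and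
  `B` with `B ∩ W = dif x' z`; there are `2 ^ (n - W.card)` such `B`.
-/

namespace Pool.Agent.Work.MP_807b32_lc.Lin

open Finset

variable {Γ α J : Type} [Fintype α] [DecidableEq α] [Fintype J] [DecidableEq J]
  (X : Finset (Γ × (α → Bool))) (A : J → Γ × (α → Bool) → Finset α) (I : Finset J)
  (D : Finset α)

theorem mu_nonneg (z : Γ × (α → Bool)) (W : Finset α) : 0 ≤ mu X A I D z W := by
  exact Finset.sum_nonneg fun B _ => mul_nonneg (wt_nonneg (by norm_num) (by norm_num) B)
    (by positivity)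

theorem mu_expect (z : Γ × (α → Bool)) (g : Finset α → ℝ) :
    ∑ W, mu X A I D z W * g W = Ex (1 / 2) (fun B =>
      (∑ x ∈ cl X A I (D \ B) z, ∑ x' ∈ cl X A I (D ∩ B) z, g (dif x x')) /
        ((cl X A I (D \ B) z).card * (cl X A I (D ∩ B) z).card)) := by
  simp only [mu, Ex, Finset.sum_mul]
  rw [Finset.sum_comm]
  refine Finset.sum_congr rfl fun B _ => ?_
  simp only [mul_assoc, div_mul_eq_mul_div]
  rw [← Finset.mul_sum, ← Finset.sum_div, ← Finset.sum_product',
    ← Finset.sum_fiberwise (g := fun t : (Γ × (α → Bool)) × Γ × (α → Bool) => dif t.1 t.2)]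
  congr 2
  refine Finset.sum_congr rfl fun W _ => ?_
  rw [Finset.sum_congr rfl fun t ht => congrArg g (Finset.mem_filter.1 ht).2, Finset.sum_const,
    nsmul_eq_mul]

theorem mu_sum {z : Γ × (α → Bool)} (hz : z ∈ X) : ∑ W, mu X A I D z W = 1 := by
  have h := mu_expect X A I D z fun _ => 1
  simp only [mul_one] at h
  refine h.trans (Eq.trans (congrArg _ (funext fun B => ?_)) (Ex_const (α := α) (1 / 2) 1))
  have h1 := cl_pos (A := A) (I := I) (D := D \ B) hz
  have h2 := cl_pos (A := A) (I := I) (D := D ∩ B) hz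
  simp only [Finset.sum_const, nsmul_eq_mul, mul_one]
  exact div_self (by positivity)

variable {X A I D} in
theorem aplant_dif {B : Finset α} {x x' z : Γ × (α → Bool)} (h : rel A I (D \ B) x z)
    (h' : rel A I (D ∩ B) x' z) : rel A I D x' x ∧ rel A I (dif x x') z x ∧
      B ∩ dif x x' = dif x' z ∧ dif x x' \ B = dif x z := by
  have k : ∀ i, i ∈ B → x.2 i = z.2 i := fun i hi => h.2.2 i fun m =>
    (mem_sdiff.1 (mem_sdiff.1 m).1).2 hi
  have k' : ∀ i, i ∉ B → x'.2 i = z.2 i := fun i hi => h'.2.2 i fun m =>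
    hi (mem_inter.1 (mem_sdiff.1 m).1).2
  refine ⟨(h'.mono inter_subset_left).trans (h.mono sdiff_subset).symm,
    ⟨h.1.symm, h.symm.2.1, fun i hi => ?_⟩, ?_, ?_⟩
  · by_contra m
    have m' := mem_sdiff.1 (h.symm.dif_subset (mem_filter.2 ⟨mem_univ i, m⟩))
    refine hi (mem_sdiff.2 ⟨mem_filter.2 ⟨mem_univ i, ?_⟩, m'.2⟩)
    rw [k' i (mem_sdiff.1 m'.1).2]
    exact Ne.symm m
  · ext i
    simp only [dif, mem_inter, mem_filter, mem_univ, true_and]
    by_cases hi : i ∈ B
    · simp only [hi, k i hi, true_and, ne_comm]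
    · simp [hi, k' i hi]
  · ext i
    simp only [dif, mem_sdiff, mem_filter, mem_univ, true_and]
    by_cases hi : i ∈ B
    · simp [hi, k i hi]
    · simp [hi, k' i hi]

omit [DecidableEq α] in
theorem aplant_comm (x z : Γ × (α → Bool)) : dif x z = dif z x := by
  simp only [dif, ne_comm]

theorem mu_supp {z : Γ × (α → Bool)} {W : Finset α} (h : mu X A I D z W ≠ 0) :
    W ⊆ D \ un A Iᶜ z := by
  obtain ⟨B, -, hB⟩ := Finset.exists_ne_zero_of_sum_ne_zero h
  have h1 := Nat.cast_ne_zero.1 (div_ne_zero_iff.1 (right_ne_zero_of_mul hB)).1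
  obtain ⟨t, ht⟩ := Finset.card_ne_zero.1 h1
  obtain ⟨h2, rfl⟩ := mem_filter.1 ht
  have h3 := (mem_cl.1 (mem_product.1 h2).1).2
  rw [aplant_comm, ← h3.un_eq]
  exact (aplant_dif h3 (mem_cl.1 (mem_product.1 h2).2).2).1.dif_subset

theorem mu_card : ∑ z ∈ X, ∑ W, mu X A I D z W * (W.card : ℝ) =
    Ex (1 / 2) (fun B => uu X A I (D ∩ B)) + Ex (1 / 2) (fun B => uu X A I (D \ B)) := by
  simp only [mu_expect X A I D _ fun W => (W.card : ℝ)]
  rw [← Ex_sum, ← Ex_add]
  refine congrArg _ (funext fun B => ?_)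
  rw [uu, uu, ← Finset.sum_add_distrib]
  refine Finset.sum_congr rfl fun z hz => ?_
  have h1 : ((cl X A I (D \ B) z).card : ℝ) ≠ 0 := Nat.cast_ne_zero.2 (cl_pos hz).ne'
  have h2 : ((cl X A I (D ∩ B) z).card : ℝ) ≠ 0 := Nat.cast_ne_zero.2 (cl_pos hz).ne'
  rw [Finset.sum_congr rfl fun x hx => Finset.sum_congr rfl fun x' hx' =>
    show ((dif x x').card : ℝ) = (dif x z).card + (dif x' z).card by
      obtain ⟨-, -, h3, h4⟩ := aplant_dif (mem_cl.1 hx).2 (mem_cl.1 hx').2
      rw [← h3, ← h4, inter_comm, ← Nat.cast_add, card_sdiff_add_card_inter]]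
  simp only [Finset.sum_add_distrib, Finset.sum_const, nsmul_eq_mul, ← Finset.mul_sum]
  field_simp
  ring

theorem aplant_ex (W V : Finset α) :
    Ex (1 / 2) (fun B => if B ∩ W = V then 1 else 0) ≤ (1 / 2) ^ W.card := by
  have h1 : ∀ B : Finset α, wt (1 / 2) B = (1 / 2) ^ W.card * (1 / 2) ^ Wᶜ.card := fun B => by
    rw [wt, show (1 : ℝ) - 1 / 2 = 1 / 2 by norm_num, ← pow_add, ← pow_add, card_add_card_compl,
      card_add_card_compl]
  have h2 : (univ.filter fun B : Finset α => B ∩ W = V).card ≤ 2 ^ Wᶜ.card := by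
    rw [← card_powerset]
    refine card_le_card_of_injOn (fun B => B \ W) (fun B _ => ?_) fun B hB B' hB' h => ?_
    · exact mem_coe.2 (mem_powerset.2 fun i hi => mem_compl.2 (mem_sdiff.1 hi).2)
    · have h3 : B \ W = B' \ W := h
      rw [← sdiff_union_inter B W, h3, (mem_filter.1 hB).2, ← (mem_filter.1 hB').2,
        sdiff_union_inter]
  simp only [Ex, h1]
  rw [← Finset.mul_sum, sum_boole, mul_assoc]
  refine mul_le_of_le_one_right (by positivity) ?_
  calc _ ≤ (1 / 2 : ℝ) ^ Wᶜ.card * 2 ^ Wᶜ.card :=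
        mul_le_mul_of_nonneg_left (by exact_mod_cast h2) (by positivity)
    _ = 1 := by rw [← mul_pow]; norm_num

open Classical in
variable {X A I D} in
theorem aplant_one {c : ℝ} (hc : 0 ≤ c) (x x' z : Γ × (α → Bool)) :
    Ex (1 / 2) (fun B => if rel A I (D \ B) x z then (if rel A I (D ∩ B) x' z then
      c * 2 ^ (dif x x').card / (cl X A I D z).card else 0) else 0) ≤
    if rel A I D x' x then (if rel A I (dif x x') z x then c else 0) / (cl X A I D x).card
      else 0 := by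
  have h0 : (0 : ℝ) ≤ 1 / 2 := by norm_num
  have h1 : (1 / 2 : ℝ) ≤ 1 := by norm_num
  refine (Ex_mono h0 h1 (g := fun B => (if rel A I D x' x then (if rel A I (dif x x') z x then c
    else 0) / (cl X A I D x).card else 0) * 2 ^ (dif x x').card *
      if B ∩ dif x x' = dif x' z then 1 else 0) fun B => ?_).trans ?_
  · by_cases h : rel A I (D \ B) x z ∧ rel A I (D ∩ B) x' z
    · obtain ⟨k1, k2, k3, -⟩ := aplant_dif h.1 h.2
      rw [if_pos h.1, if_pos h.2, if_pos k1, if_pos k2, if_pos k3, cl_eq (h.1.mono sdiff_subset)]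
      exact le_of_eq (by ring)
    · refine le_trans (b := 0) (le_of_eq ?_) ?_
      · split_ifs with a b
        exacts [absurd ⟨a, b⟩ h, rfl, rfl]
      · positivity
  · rw [Ex_mul]
    refine (mul_le_mul_of_nonneg_left (aplant_ex _ _) (by positivity)).trans_eq ?_
    rw [mul_assoc, ← mul_pow]
    norm_num

theorem aplant_sum (ω : Γ × (α → Bool) → Finset α → ℝ) (hω : ∀ z ∈ X, ∀ W, 0 < ω z W)
    (hk : ∀ x ∈ X, ∀ W, W ⊆ D \ un A Iᶜ x → ∑ z ∈ cl X A I W x, ω z W ≤ 1) :
    ∑ z ∈ X, Ex (1 / 2) (fun B => ∑ x ∈ cl X A I (D \ B) z, ∑ x' ∈ cl X A I (D ∩ B) z,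
      ω z (dif x x') * 2 ^ (dif x x').card / (cl X A I D z).card) ≤ X.card := by
  classical
  have e : ∀ (W : Finset α) (z : Γ × (α → Bool)) (f : Γ × (α → Bool) → ℝ),
      ∑ x ∈ cl X A I W z, f x = ∑ x ∈ X, if rel A I W x z then f x else 0 := fun W z f => by
    rw [← sum_filter]
    exact Finset.sum_congr (by ext x; rw [mem_cl, mem_filter]) fun _ _ => rfl
  simp only [e, ite_sum_zero, Ex_sum]
  rw [Finset.sum_comm, card_eq_sum_ones, Nat.cast_sum]
  refine sum_le_sum fun x hx => ?_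
  rw [Finset.sum_comm]
  refine (sum_le_sum fun x' _ => sum_le_sum fun z hz => aplant_one (hω z hz _).le x x' z).trans ?_
  have h1 : (0 : ℝ) < (cl X A I D x).card := Nat.cast_pos.2 (cl_pos hx)
  refine (sum_le_sum (g := fun x' => if rel A I D x' x then 1 / ((cl X A I D x).card : ℝ) else 0)
    fun x' _ => ?_).trans ?_
  · split_ifs with h
    · rw [← Finset.sum_div, ← e]
      exact div_le_div_of_nonneg_right (hk x hx _ (aplant_comm x' x ▸ h.dif_subset)) h1.le
    · simp
  · rw [← e, Finset.sum_const, nsmul_eq_mul, mul_one_div_cancel h1.ne', Nat.cast_one]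

theorem aplant_log {β : Type} (S T : Finset β) (hS : 0 < S.card) (hT : 0 < T.card) {N : ℝ}
    (hN : 0 < N) (w : β → β → ℝ) (hw : ∀ x x', 0 < w x x') (k : β → β → ℕ) :
    (∑ x ∈ S, ∑ x' ∈ T, (k x x' * Real.log 2 + Real.log (w x x'))) / (S.card * T.card) ≤
      Real.log N - Real.log T.card - Real.log S.card +
        (∑ x ∈ S, ∑ x' ∈ T, w x x' * 2 ^ k x x' / N - 1) := by
  have h1 : (0 : ℝ) < S.card := Nat.cast_pos.2 hS
  have h2 : (0 : ℝ) < T.card := Nat.cast_pos.2 hT
  rw [div_le_iff₀ (mul_pos h1 h2)]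
  refine (sum_le_sum fun x _ => sum_le_sum (g := fun x' => Real.log N - Real.log T.card -
    Real.log S.card + (w x x' * 2 ^ k x x' / N * (S.card * T.card) - 1)) fun x' _ => ?_).trans_eq ?_
  · have h3 := hw x x'
    have h4 := Real.log_le_sub_one_of_pos
      (show 0 < w x x' * 2 ^ k x x' / N * (S.card * T.card) by positivity)
    rw [Real.log_mul (by positivity) (by positivity), Real.log_div (by positivity) hN.ne',
      Real.log_mul h3.ne' (by positivity), Real.log_mul h1.ne' h2.ne', Real.log_pow] at h4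
    linarith
  · simp only [Finset.sum_add_distrib, Finset.sum_sub_distrib, Finset.sum_const, nsmul_eq_mul,
      ← Finset.sum_mul]
    ring

theorem plant (ω : Γ × (α → Bool) → Finset α → ℝ) (hω : ∀ z ∈ X, ∀ W, 0 < ω z W)
    (hk : ∀ x ∈ X, ∀ W, W ⊆ D \ un A Iᶜ x → ∑ z ∈ cl X A I W x, ω z W ≤ 1) :
    ∑ z ∈ X, ∑ W, mu X A I D z W * (W.card * Real.log 2 + Real.log (ω z W)) ≤ II X A I D := by
  have h := aplant_sum X A I D ω hω hk
  simp only [mu_expect X A I D _ fun W => W.card * Real.log 2 + Real.log (ω _ W)]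
  refine (sum_le_sum fun z hz => Ex_mono (by norm_num) (by norm_num) fun B =>
    aplant_log _ _ (cl_pos hz) (cl_pos hz) (Nat.cast_pos.2 (cl_pos (A := A) (I := I) (D := D) hz))
      (fun x x' => ω z (dif x x')) (fun _ _ => hω z hz _) fun x x' => (dif x x').card).trans ?_
  simp only [Ex_add, Ex_sub, Ex_const, Finset.sum_add_distrib, Finset.sum_sub_distrib, II, Phi,
    Finset.sum_const, nsmul_eq_mul, mul_one]
  rw [Ex_sum, Ex_sum]
  linarith

/-- `plant` with `ω z W = 1 / (cl X A I W z).card`. -/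
theorem plant_delta :
    ∑ z ∈ X, ∑ W, mu X A I D z W * (W.card * Real.log 2 - Real.log (cl X A I W z).card) ≤
      II X A I D := by
  have h := plant X A I D (fun z W => ((cl X A I W z).card : ℝ)⁻¹)
    (fun z hz W => inv_pos.2 (Nat.cast_pos.2 (cl_pos hz))) fun x hx W _ => by
      rw [Finset.sum_congr rfl fun z hz => by rw [cl_eq (mem_cl.1 hz).2], Finset.sum_const,
        nsmul_eq_mul, mul_inv_cancel₀ (Nat.cast_ne_zero.2 (cl_pos hx).ne')]
  simpa only [Real.log_inv, ← sub_eq_add_neg] using h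

/-- From `plant_delta` and `cl_card_le`. -/
theorem II_nonneg : 0 ≤ II X A I D := by
  refine le_trans (sum_nonneg fun z hz => sum_nonneg fun W _ =>
    mul_nonneg (mu_nonneg X A I D z W) (sub_nonneg.2 ?_)) (plant_delta X A I D)
  rw [← Real.log_pow]
  exact Real.log_le_log (Nat.cast_pos.2 (cl_pos hz)) (by exact_mod_cast cl_card_le z)

end Pool.Agent.Work.MP_807b32_lc.Lin
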