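import Pool.Agent.Work.MP_807b32_lc.Lin.AInner

/-!
The averaged recursion.

Plan.
* `II_avg`, `card_avg`: linearity of `Ex` and `Ex_half` (with `mu_card`).
* `PH_le`: `cl_card_le`, `log 2 ≤ 1`, `Ex_card_inter` with `K = univ`.
* `base_avg`: average `base`; `(D ∩ un A I'ᶜ z).card ≤ ∑ j, if j ∈ I'ᶜ then (D ∩ A j z).card else 0`,
  whose average is `(1 - q) * p * ∑ j, (A j z).card` (`Ex_disjoint` with a singleton,
  `Ex_card_inter`).
* `step`: average `inner` with `I' = I ∩ I''` over `I ~ q`, `D ~ p`, `I'' ~ 1 - σ`; `Ex_inter` turns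
  the average of `uu X A (I ∩ I'') D` into `UU X A (q * (1 - σ)) p`. With the reader set
  `K z i = univ.filter (fun j => i ∈ A j z)`, for `W ⊆ D \ un A Iᶜ z` (`mu_supp`):
  `(W ∩ un A (I \ (I ∩ I'')) z).card ≤ ∑ i ∈ W, (if (K z i).card ≤ y then (K z i \ I'').card else 0)
  + ∑ i, (if y < (K z i).card ∧ i ∈ D ∧ K z i ⊆ I then 1 else 0)`. The first sum has average over
  `I''` at most `σ * y * W.card` (`Ex_card_sdiff`), the second does not depend on `W` (`mu_sum`)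
  and has average at most `n * p * ε` (`Ex_subset`).
-/

namespace Pool.Agent.Work.MP_807b32_lc.Lin

open Finset

variable {Γ α J : Type} [Fintype α] [DecidableEq α] [Fintype J] [DecidableEq J]
  (X : Finset (Γ × (α → Bool))) (A : J → Γ × (α → Bool) → Finset α)

theorem astep_nonneg {p : ℝ} (h0 : 0 ≤ p) (h1 : p ≤ 1) {f : Finset α → ℝ} (h : ∀ D, 0 ≤ f D) :
    0 ≤ Ex p f :=
  (Ex_const p 0).symm.trans_le (Ex_mono h0 h1 h)

theorem astep_mul (p c : ℝ) (f : Finset α → ℝ) : Ex p (fun D => f D * c) = Ex p f * c := by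
  simp only [mul_comm _ c, Ex_mul]

theorem astep_mem (p : ℝ) (i : α) : Ex p (fun D => if i ∈ D then 1 else 0) = p := by
  simpa only [singleton_subset_iff, card_singleton, pow_one] using Ex_subset p {i}

theorem astep_nmem (p : ℝ) (i : α) : Ex p (fun D => if i ∉ D then 1 else 0) = 1 - p := by
  simpa only [disjoint_singleton_left, card_singleton, pow_one] using Ex_disjoint p {i}

theorem astep_card (p : ℝ) : Ex p (fun D : Finset α => (D.card : ℝ)) = p * Fintype.card α := by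
  simpa only [inter_univ, card_univ] using Ex_card_inter p (univ : Finset α)

theorem II_avg (q p : ℝ) :
    Ex q (fun I => Ex p (fun D => II X A I D)) = PH X A q p - 2 * PH X A q (p / 2) := by
  have h1 := fun I => (Ex_half p (Phi X A I)).1
  have h2 := fun I => (Ex_half p (Phi X A I)).2
  simp only [II, Ex_sub, h1, h2, PH]
  ring

theorem card_avg (q p : ℝ) :
    Ex q (fun I => Ex p (fun D => ∑ z ∈ X, ∑ W, mu X A I D z W * (W.card : ℝ))) =
      2 * UU X A q (p / 2) := by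
  have h1 := fun I => (Ex_half p (uu X A I)).1
  have h2 := fun I => (Ex_half p (uu X A I)).2
  simp only [mu_card, Ex_add, h1, h2, UU]
  ring

theorem PH_nonneg {q p : ℝ} (hq0 : 0 ≤ q) (hq1 : q ≤ 1) (hp0 : 0 ≤ p) (hp1 : p ≤ 1) :
    0 ≤ PH X A q p := by
  exact astep_nonneg hq0 hq1 fun I => astep_nonneg hp0 hp1 fun D =>
    sum_nonneg fun z _ => Real.log_natCast_nonneg _

theorem PH_le {q p : ℝ} (hq0 : 0 ≤ q) (hq1 : q ≤ 1) (hp0 : 0 ≤ p) (hp1 : p ≤ 1) :
    PH X A q p ≤ p * Fintype.card α * X.card := by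
  have h1 : ∀ I D, Phi X A I D ≤ (D.card : ℝ) * X.card := fun I D => by
    rw [mul_comm, ← nsmul_eq_mul]
    refine sum_le_card_nsmul _ _ _ fun z hz => ?_
    have h2 : ((cl X A I D z).card : ℝ) ≤ 2 ^ D.card := by exact_mod_cast cl_card_le z
    have h3 : (0 : ℝ) < (cl X A I D z).card := by exact_mod_cast cl_pos hz
    have h4 := Real.log_le_sub_one_of_pos (two_pos (α := ℝ))
    refine (Real.log_le_log h3 h2).trans ?_
    rw [Real.log_pow]
    exact mul_le_of_le_one_right (Nat.cast_nonneg _) (by linarith)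
  refine (Ex_mono hq0 hq1 fun I => Ex_mono hp0 hp1 (h1 I)).trans_eq ?_
  rw [Ex_const, astep_mul, astep_card]

theorem PH_half_le {q p : ℝ} (hq0 : 0 ≤ q) (hq1 : q ≤ 1) (hp0 : 0 ≤ p) (hp1 : p ≤ 1) :
    2 * PH X A q (p / 2) ≤ PH X A q p := by
  have h := astep_nonneg hq0 hq1 fun I => astep_nonneg hp0 hp1 fun D => II_nonneg X A I D
  rw [II_avg] at h
  linarith

omit [Fintype α] in
theorem astep_un (I : Finset J) (D : Finset α) (z : Γ × (α → Bool)) :
    ((D ∩ un A Iᶜ z).card : ℝ) ≤ ∑ j, (if j ∉ I then 1 else 0) * ((D ∩ A j z).card : ℝ) := by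
  have h1 : (D ∩ un A Iᶜ z).card ≤ ∑ j ∈ Iᶜ, (D ∩ A j z).card := by
    rw [un, inter_biUnion]
    exact card_biUnion_le
  refine (Nat.cast_le.2 h1).trans_eq ?_
  simp only [Nat.cast_sum, boole_mul, ← mem_compl, sum_ite_mem, univ_inter]

theorem base_avg [Fintype Γ] (hG : Good X A) (hX : X.Nonempty) (K : ℝ)
    (hK : ∀ z ∈ X, ∑ j, ((A j z).card : ℝ) ≤ K * Fintype.card α) (Δ : ℝ)
    (hΔ : (Fintype.card Γ : ℝ) * 2 ^ Fintype.card α * Real.exp (-Δ) ≤ X.card)
    {q p : ℝ} (hq0 : 0 ≤ q) (hq1 : q ≤ 1) (hp0 : 0 ≤ p) (hp1 : p ≤ 1) :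
    X.card * (p * Fintype.card α / 5 - 4 * (1 - q) * K * p * Fintype.card α - Δ) ≤
      5 * UU X A q p := by
  have h1 : ∀ I D, (X.card : ℝ) / 5 * D.card - 4 * (∑ z ∈ X, ∑ j, (if j ∉ I then 1 else 0) *
      ((D ∩ A j z).card : ℝ)) - 5 * uu X A I D ≤ X.card * Δ := fun I D => by
    have h2 := base X A hG hX I D Δ hΔ
    have h3 := sum_le_sum fun z (_ : z ∈ X) => astep_un A I D z
    linarith
  have h2 := Ex_mono hq0 hq1 fun I => Ex_mono hp0 hp1 (h1 I)
  simp only [Ex_const, Ex_sub, Ex_mul, Ex_sum, astep_mul, astep_card, Ex_card_inter,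
    astep_nmem] at h2
  have h3 : ∑ z ∈ X, ∑ j, (1 - q) * (p * ((A j z).card : ℝ)) ≤
      X.card * ((1 - q) * (p * (K * Fintype.card α))) := by
    rw [← nsmul_eq_mul]
    refine sum_le_card_nsmul _ _ _ fun z hz => ?_
    rw [← mul_sum, ← mul_sum]
    exact mul_le_mul_of_nonneg_left (mul_le_mul_of_nonneg_left (hK z hz) hp0) (by linarith)
  rw [UU]
  linarith

/-- The segments that read `i`. -/
def astep_K (z : Γ × (α → Bool)) (i : α) : Finset J := univ.filter (fun j => i ∈ A j z)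

/-- The coordinates of `D` with many readers, all of them in `I`. -/
noncomputable def astep_c (y : ℝ) (I : Finset J) (D : Finset α) (z : Γ × (α → Bool)) : ℝ :=
  ∑ i, (if y < (astep_K A z i).card then 1 else 0) *
    ((if astep_K A z i ⊆ I then 1 else 0) * if i ∈ D then 1 else 0)

theorem astep_pt {I : Finset J} {D W : Finset α} {z : Γ × (α → Bool)} (hW : W ⊆ D \ un A Iᶜ z)
    (y : ℝ) (I'' : Finset J) : ((W ∩ un A (I \ (I ∩ I'')) z).card : ℝ) ≤
      ∑ i ∈ W, (if y < (astep_K A z i).card then 0 else 1) * ((astep_K A z i \ I'').card : ℝ) +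
        astep_c A y I D z := by
  rw [← filter_mem_eq_inter, ← sum_boole]
  refine le_trans ?_ (add_le_add_right (sum_le_sum_of_subset_of_nonneg (subset_univ W)
    fun i _ _ => by positivity) _)
  rw [← sum_add_distrib]
  refine sum_le_sum fun i hi => ?_
  by_cases h : i ∈ un A (I \ (I ∩ I'')) z
  · obtain ⟨h1, h2⟩ := mem_sdiff.1 (hW hi)
    obtain ⟨j, j1, j2⟩ := mem_un.1 h
    have h3 : astep_K A z i ⊆ I := fun l hl => by
      by_contra hn
      exact h2 (mem_un.2 ⟨l, mem_compl.2 hn, (mem_filter.1 hl).2⟩)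
    have h4 : 1 ≤ (astep_K A z i \ I'').card := card_pos.2 ⟨j, mem_sdiff.2
      ⟨mem_filter.2 ⟨mem_univ _, j2⟩,
        fun e => (mem_sdiff.1 j1).2 (mem_inter.2 ⟨(mem_sdiff.1 j1).1, e⟩)⟩⟩
    rw [if_pos h, if_pos h3, if_pos h1]
    by_cases h5 : y < (astep_K A z i).card
    · simp only [if_pos h5, zero_mul, zero_add, mul_one, le_refl]
    · simp only [if_neg h5, zero_mul, add_zero, one_mul]
      exact_mod_cast h4
  · rw [if_neg h]
    positivity

theorem astep_one {I : Finset J} {D W : Finset α} {z : Γ × (α → Bool)} (hW : W ⊆ D \ un A Iᶜ z)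
    {σ y : ℝ} (hσ0 : 0 ≤ σ) (hσ1 : σ ≤ 1) (hy : 0 ≤ y) :
    Ex (1 - σ) (fun I'' => ((W ∩ un A (I \ (I ∩ I'')) z).card : ℝ)) ≤
      σ * y * W.card + astep_c A y I D z := by
  refine (Ex_mono (by linarith) (by linarith) (astep_pt A hW y)).trans ?_
  simp only [Ex_add, Ex_const, Ex_sum, Ex_mul, Ex_card_sdiff, sub_sub_cancel]
  refine add_le_add_left ?_ _
  rw [mul_comm, ← nsmul_eq_mul]
  refine sum_le_card_nsmul _ _ _ fun i _ => ?_
  by_cases h : y < (astep_K A z i).card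
  · rw [if_pos h, zero_mul]
    positivity
  · rw [if_neg h, one_mul]
    exact mul_le_mul_of_nonneg_left (not_lt.1 h) hσ0

theorem astep_fix (hG : Good X A) {σ y : ℝ} (hσ0 : 0 ≤ σ) (hσ1 : σ ≤ 1) (hy : 0 ≤ y)
    (I : Finset J) (D : Finset α) :
    (1 / 5 - 4 * σ * y) * (∑ z ∈ X, ∑ W, mu X A I D z W * (W.card : ℝ)) -
      4 * (∑ z ∈ X, astep_c A y I D z) - 5 * Ex (1 - σ) (fun I'' => uu X A (I ∩ I'') D) ≤
        II X A I D := by
  have h := Ex_mono (p := 1 - σ) (by linarith) (by linarith)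
    fun I'' => inner X A hG (inter_subset_left (s₁ := I) (s₂ := I'')) D
  simp only [Ex_const, Ex_sub, Ex_mul, Ex_sum] at h
  refine le_trans (sub_le_sub_right ?_ _) h
  rw [mul_sum, mul_sum, ← sum_sub_distrib]
  refine sum_le_sum fun z hz => ?_
  have e : 4 * astep_c A y I D z = ∑ W, mu X A I D z W * (4 * astep_c A y I D z) := by
    rw [← sum_mul, mu_sum X A I D hz, one_mul]
  rw [e, mul_sum, ← sum_sub_distrib]
  refine sum_le_sum fun W _ => ?_
  by_cases h0 : mu X A I D z W = 0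
  · simp only [h0, zero_mul, mul_zero, sub_zero, le_refl]
  · have h1 := mul_le_mul_of_nonneg_left (astep_one A (mu_supp X A I D h0) hσ0 hσ1 hy)
      (mu_nonneg X A I D z W)
    linarith

theorem astep_avg {q p y ε : ℝ} (hp0 : 0 ≤ p) (hε0 : 0 ≤ ε) (hε : ∀ m : ℕ, y < m → q ^ m ≤ ε)
    (z : Γ × (α → Bool)) :
    Ex q (fun I => Ex p (fun D => astep_c A y I D z)) ≤ Fintype.card α * (ε * p) := by
  simp only [astep_c, Ex_sum, Ex_mul, astep_mul, astep_mem, Ex_subset]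
  rw [← nsmul_eq_mul, ← card_univ]
  refine sum_le_card_nsmul _ _ _ fun i _ => ?_
  by_cases h : y < (astep_K A z i).card
  · rw [if_pos h, one_mul]
    exact mul_le_mul_of_nonneg_right (hε _ h) hp0
  · rw [if_neg h, zero_mul]
    positivity

theorem step (hG : Good X A) {q p σ y ε : ℝ} (hq0 : 0 ≤ q) (hq1 : q ≤ 1) (hp0 : 0 ≤ p)
    (hp1 : p ≤ 1) (hσ0 : 0 ≤ σ) (hσ1 : σ ≤ 1) (hy : 0 ≤ y) (hε0 : 0 ≤ ε)
    (hε : ∀ m : ℕ, y < m → q ^ m ≤ ε) :
    (2 / 5 - 8 * σ * y) * UU X A q (p / 2) - 4 * p * Fintype.card α * ε * X.card -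
      (PH X A q p - 2 * PH X A q (p / 2)) ≤ 5 * UU X A (q * (1 - σ)) p := by
  have h := Ex_mono hq0 hq1 fun I => Ex_mono hp0 hp1 (astep_fix X A hG hσ0 hσ1 hy I)
  have e : Ex q (fun I => Ex p (fun D => Ex (1 - σ) (fun I'' => uu X A (I ∩ I'') D))) =
      UU X A (q * (1 - σ)) p := by
    rw [UU, ← Ex_inter]
    exact congrArg _ (funext fun I => Ex_comm _ _ _)
  have h2 : Ex q (fun I => Ex p (fun D => ∑ z ∈ X, astep_c A y I D z)) ≤
      X.card * (Fintype.card α * (ε * p)) := by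
    simp only [Ex_sum]
    rw [← nsmul_eq_mul]
    exact sum_le_card_nsmul _ _ _ fun z _ => astep_avg A hp0 hε0 hε z
  simp only [Ex_sub, Ex_mul] at h
  rw [II_avg, card_avg, e] at h
  linarith

end Pool.Agent.Work.MP_807b32_lc.Lin
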