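import Mathlib

/-!
Random subsets with independent inclusion probability `p`.

Plan. `wt p D = ∏ i, if i ∈ D then p else 1 - p`. The basic identity is
`Ex p (fun D => ∏ i, g i (i ∈ D)) = ∏ i, (p * g i True + (1 - p) * g i False)`, from
`Finset.prod_add` (`Finset.powerset_univ`, `Finset.compl_eq_univ_sdiff`).
* `Ex_inter`: enough for `f` the indicator of one set `E` (expand `f`); the indicator of
  `D ∩ B = E` is a product over the coordinates, use the basic identity twice.
* `Ex_compl`: reindex by the involution `B ↦ Bᶜ`.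
* `Ex_tail`: the indicator is at most `2 ^ D.card / 2 ^ (4 p n)` (real power, or `exp`), and
  `(1 + p) ^ n ≤ exp (p n)`, `4 * log 2 ≥ 2`.
* `sum_pow_tail`: `∑ W, (2 * lam) ^ W.card = (1 + 2 * lam) ^ n ≤ exp (2 * lam * n)` and
  `exp (a * log 2) ≤ 2 ^ W.card` when `a < W.card`.
-/

namespace Pool.Agent.Work.MP_807b32_lc.Lin

open Finset

variable {α : Type} [Fintype α] [DecidableEq α]

/-- Probability of the subset `D`. -/
noncomputable def wt (p : ℝ) (D : Finset α) : ℝ := p ^ D.card * (1 - p) ^ Dᶜ.card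

/-- Expectation over a random subset. -/
noncomputable def Ex (p : ℝ) (f : Finset α → ℝ) : ℝ := ∑ D, wt p D * f D

theorem wt_nonneg {p : ℝ} (h0 : 0 ≤ p) (h1 : p ≤ 1) (D : Finset α) : 0 ≤ wt p D :=
  mul_nonneg (pow_nonneg h0 _) (pow_nonneg (by linarith) _)

theorem Ex_mono {p : ℝ} (h0 : 0 ≤ p) (h1 : p ≤ 1) {f g : Finset α → ℝ} (h : ∀ D, f D ≤ g D) :
    Ex p f ≤ Ex p g :=
  Finset.sum_le_sum fun D _ => mul_le_mul_of_nonneg_left (h D) (wt_nonneg h0 h1 D)

theorem Ex_add (p : ℝ) (f g : Finset α → ℝ) :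
    Ex p (fun D => f D + g D) = Ex p f + Ex p g := by
  simp only [Ex, mul_add, Finset.sum_add_distrib]

theorem Ex_sub (p : ℝ) (f g : Finset α → ℝ) :
    Ex p (fun D => f D - g D) = Ex p f - Ex p g := by
  simp only [Ex, mul_sub, Finset.sum_sub_distrib]

theorem Ex_mul (p c : ℝ) (f : Finset α → ℝ) : Ex p (fun D => c * f D) = c * Ex p f := by
  simp only [Ex, Finset.mul_sum]
  exact Finset.sum_congr rfl fun D _ => by ring

theorem Ex_sum {X : Type} (p : ℝ) (s : Finset X) (f : X → Finset α → ℝ) :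
    Ex p (fun D => ∑ x ∈ s, f x D) = ∑ x ∈ s, Ex p (f x) := by
  simp only [Ex, Finset.mul_sum]
  rw [Finset.sum_comm]

theorem Ex_comm {β : Type} [Fintype β] [DecidableEq β] (p q : ℝ)
    (f : Finset α → Finset β → ℝ) :
    Ex p (fun D => Ex q (fun I => f D I)) = Ex q (fun I => Ex p (fun D => f D I)) := by
  simp only [Ex, Finset.mul_sum]
  rw [Finset.sum_comm]
  exact Finset.sum_congr rfl fun I _ => Finset.sum_congr rfl fun D _ => by ring

theorem awt_split (D : Finset α) (g h : α → ℝ) :
    (∏ i, if i ∈ D then g i else h i) = (∏ i ∈ D, g i) * ∏ i ∈ Dᶜ, h i := by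
  rw [← Finset.prod_mul_prod_compl D]
  congr 1
  · exact Finset.prod_congr rfl fun i hi => if_pos hi
  · exact Finset.prod_congr rfl fun i hi => if_neg (Finset.mem_compl.mp hi)

theorem awt_wt (p : ℝ) (E : Finset α) : wt p E = ∏ i, if i ∈ E then p else 1 - p := by
  rw [awt_split E (fun _ => p) (fun _ => 1 - p), Finset.prod_const, Finset.prod_const, wt]

theorem awt_prod (p : ℝ) (g h : α → ℝ) :
    Ex p (fun D => ∏ i, if i ∈ D then g i else h i) = ∏ i, (p * g i + (1 - p) * h i) := by
  rw [Finset.prod_add, Finset.powerset_univ, Ex]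
  refine Finset.sum_congr rfl fun D _ => ?_
  rw [awt_split, ← Finset.compl_eq_univ_sdiff, Finset.prod_mul_distrib, Finset.prod_mul_distrib,
    Finset.prod_const, Finset.prod_const, wt]
  ring

theorem awt_ind (D B E : Finset α) :
    (if D ∩ B = E then (1 : ℝ) else 0) =
      ∏ i, if i ∈ B then (if (i ∈ D ↔ i ∈ E) then 1 else 0) else (if i ∈ E then 0 else 1) := by
  by_cases h : D ∩ B = E
  · rw [if_pos h]
    subst h
    symm
    refine Finset.prod_eq_one fun i _ => ?_
    by_cases hB : i ∈ B <;> by_cases hD : i ∈ D <;> simp [hB, hD]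
  · rw [if_neg h]
    have : ∃ i, ¬ (i ∈ D ∩ B ↔ i ∈ E) := by
      by_contra hh
      push Not at hh
      exact h (Finset.ext fun i => by simpa using hh i)
    obtain ⟨i, hi⟩ := this
    symm
    refine Finset.prod_eq_zero (Finset.mem_univ i) ?_
    rw [Finset.mem_inter] at hi
    by_cases hB : i ∈ B <;> by_cases hD : i ∈ D <;> by_cases hE : i ∈ E <;> simp_all

theorem awt_inter_ind (p s : ℝ) (E : Finset α) :
    Ex p (fun D => Ex s (fun B => if D ∩ B = E then (1 : ℝ) else 0)) = wt (p * s) E := by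
  have h1 : ∀ D : Finset α, Ex s (fun B => if D ∩ B = E then (1 : ℝ) else 0) =
      ∏ i, if i ∈ D then (if i ∈ E then s else 1 - s) else (if i ∈ E then 0 else 1) := by
    intro D
    simp only [awt_ind D _ E]
    rw [awt_prod s (fun i => if (i ∈ D ↔ i ∈ E) then 1 else 0) (fun i => if i ∈ E then 0 else 1)]
    refine Finset.prod_congr rfl fun i _ => ?_
    by_cases hD : i ∈ D <;> by_cases hE : i ∈ E <;> simp [hD, hE]
  simp only [h1]
  rw [awt_prod p (fun i => if i ∈ E then s else 1 - s) (fun i => if i ∈ E then 0 else 1), awt_wt]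
  refine Finset.prod_congr rfl fun i _ => ?_
  by_cases hE : i ∈ E
  · simp [hE]
  · simp only [hE, if_false]
    ring

theorem Ex_const (p c : ℝ) : Ex p (fun _ : Finset α => c) = c := by
  have h := awt_prod (α := α) p (fun _ => 1) (fun _ => 1)
  simp only [ite_self, Finset.prod_const_one, mul_one, add_sub_cancel] at h
  have h2 := Ex_mul (α := α) p c (fun _ => 1)
  simp only [mul_one] at h2
  rw [h2, h, mul_one]

theorem Ex_inter (p s : ℝ) (f : Finset α → ℝ) :
    Ex p (fun D => Ex s (fun B => f (D ∩ B))) = Ex (p * s) f := by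
  have h1 : ∀ D B : Finset α, f (D ∩ B) = ∑ E, f E * (if D ∩ B = E then (1 : ℝ) else 0) := by
    intro D B
    simp
  have h2 : ∀ D : Finset α, Ex s (fun B => f (D ∩ B)) =
      ∑ E, f E * Ex s (fun B => if D ∩ B = E then (1 : ℝ) else 0) := by
    intro D
    simp only [h1 D]
    rw [Ex_sum s Finset.univ (fun E B => f E * (if D ∩ B = E then (1 : ℝ) else 0))]
    exact Finset.sum_congr rfl fun E _ => Ex_mul s (f E) _
  simp only [h2]
  rw [Ex_sum p Finset.univ
    (fun E D => f E * Ex s (fun B => if D ∩ B = E then (1 : ℝ) else 0))]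
  refine Finset.sum_congr rfl fun E _ => ?_
  rw [Ex_mul p (f E), awt_inter_ind, mul_comm]

theorem Ex_compl (s : ℝ) (f : Finset α → ℝ) : Ex s (fun B => f Bᶜ) = Ex (1 - s) f := by
  unfold Ex
  refine Fintype.sum_bijective (fun B : Finset α => Bᶜ) compl_bijective _ _ fun B => ?_
  simp only [wt, compl_compl, sub_sub_cancel]
  ring

theorem Ex_half (p : ℝ) (f : Finset α → ℝ) :
    Ex p (fun D => Ex (1 / 2) (fun B => f (D ∩ B))) = Ex (p / 2) f ∧
      Ex p (fun D => Ex (1 / 2) (fun B => f (D \ B))) = Ex (p / 2) f := by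
  have h1 : Ex p (fun D => Ex (1 / 2) (fun B => f (D ∩ B))) = Ex (p / 2) f := by
    rw [Ex_inter, mul_one_div]
  refine ⟨h1, ?_⟩
  have h2 : ∀ D : Finset α,
      Ex (1 / 2) (fun B => f (D \ B)) = Ex (1 / 2) (fun B => f (D ∩ B)) := by
    intro D
    have h3 := Ex_compl (1 / 2) (fun B : Finset α => f (D ∩ B))
    have h4 : (1 : ℝ) - 1 / 2 = 1 / 2 := by norm_num
    rw [h4] at h3
    rw [← h3]
    simp only [Finset.sdiff_eq_inter_compl]
  simp only [h2]
  exact h1

theorem wt_half (B : Finset α) : wt (1 / 2) B = 1 / 2 ^ Fintype.card α := by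
  have h4 : (1 : ℝ) - 1 / 2 = 1 / 2 := by norm_num
  rw [wt, h4, ← pow_add, Finset.card_add_card_compl, one_div_pow]

theorem Ex_subset (p : ℝ) (K : Finset α) :
    Ex p (fun D => if K ⊆ D then 1 else 0) = p ^ K.card := by
  have h1 : ∀ D : Finset α, (if K ⊆ D then (1 : ℝ) else 0) =
      ∏ i, if i ∈ D then 1 else (if i ∈ K then 0 else 1) := by
    intro D
    by_cases h : K ⊆ D
    · rw [if_pos h]
      symm
      refine Finset.prod_eq_one fun i _ => ?_
      by_cases hD : i ∈ D
      · simp [hD]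
      · have hK : i ∉ K := fun hK => hD (h hK)
        simp [hD, hK]
    · rw [if_neg h]
      obtain ⟨i, hK, hD⟩ := Finset.not_subset.mp h
      symm
      refine Finset.prod_eq_zero (Finset.mem_univ i) ?_
      simp [hD, hK]
  simp only [h1]
  rw [awt_prod p (fun _ => 1) (fun i => if i ∈ K then 0 else 1)]
  have h2 : ∀ i, p * 1 + (1 - p) * (if i ∈ K then (0 : ℝ) else 1) = if i ∈ K then p else 1 := by
    intro i
    by_cases hK : i ∈ K <;> simp [hK]
  simp only [h2]
  rw [awt_split K (fun _ => p) (fun _ => 1)]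
  simp

theorem Ex_disjoint (p : ℝ) (K : Finset α) :
    Ex p (fun D => if Disjoint K D then 1 else 0) = (1 - p) ^ K.card := by
  have h1 : ∀ D : Finset α, (if Disjoint K D then (1 : ℝ) else 0) =
      (if K ⊆ Dᶜ then (1 : ℝ) else 0) := by
    intro D
    simp only [Finset.subset_compl_iff_disjoint_right]
  simp only [h1]
  rw [Ex_compl p (fun D => if K ⊆ D then (1 : ℝ) else 0), Ex_subset]

theorem Ex_card_inter (p : ℝ) (K : Finset α) :
    Ex p (fun D => ((D ∩ K).card : ℝ)) = p * K.card := by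
  have h1 : ∀ D : Finset α, ((D ∩ K).card : ℝ) =
      ∑ i ∈ K, (if ({i} : Finset α) ⊆ D then (1 : ℝ) else 0) := by
    intro D
    simp only [Finset.singleton_subset_iff, Finset.sum_boole, Finset.filter_mem_eq_inter]
    rw [Finset.inter_comm]
  simp only [h1]
  rw [Ex_sum p K (fun i D => if ({i} : Finset α) ⊆ D then (1 : ℝ) else 0)]
  simp only [Ex_subset, Finset.card_singleton, pow_one, Finset.sum_const, nsmul_eq_mul]
  ring

theorem Ex_card_sdiff (p : ℝ) (K : Finset α) :
    Ex p (fun D => ((K \ D).card : ℝ)) = (1 - p) * K.card := by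
  have h1 : ∀ D : Finset α, ((K \ D).card : ℝ) = ((Dᶜ ∩ K).card : ℝ) := by
    intro D
    rw [Finset.sdiff_eq_inter_compl, Finset.inter_comm]
  simp only [h1]
  rw [Ex_compl p (fun D => ((D ∩ K).card : ℝ)), Ex_card_inter]

theorem Ex_pow_sdiff (p t : ℝ) (K : Finset α) :
    Ex p (fun D => t ^ (D \ K).card) = (1 - p + p * t) ^ Kᶜ.card := by
  have h1 : ∀ D : Finset α, t ^ (D \ K).card =
      ∏ i, if i ∈ D then (if i ∈ K then 1 else t) else 1 := by
    intro D
    have h2 : ∀ i, (if i ∈ D then (if i ∈ K then 1 else t) else 1) =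
        if i ∈ D \ K then t else 1 := by
      intro i
      by_cases hD : i ∈ D <;> by_cases hK : i ∈ K <;> simp [hD, hK]
    simp only [h2]
    rw [awt_split (D \ K) (fun _ => t) (fun _ => 1)]
    simp
  simp only [h1]
  rw [awt_prod p (fun i => if i ∈ K then 1 else t) (fun _ => 1)]
  have h3 : ∀ i, p * (if i ∈ K then 1 else t) + (1 - p) * 1 =
      if i ∈ K then 1 else 1 - p + p * t := by
    intro i
    by_cases hK : i ∈ K
    · simp [hK]
    · simp only [hK, if_false]
      ring
  simp only [h3]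
  rw [awt_split K (fun _ => 1) (fun _ => 1 - p + p * t)]
  simp

theorem Ex_tail {p : ℝ} (h0 : 0 ≤ p) (h1 : p ≤ 1) :
    Ex p (fun D : Finset α => if 4 * p * Fintype.card α < D.card then 1 else 0) ≤
      Real.exp (-(p * Fintype.card α)) := by
  set n : ℝ := (Fintype.card α : ℝ) with hn
  have hn0 : 0 ≤ n := Nat.cast_nonneg _
  have hl : (1 : ℝ) / 2 ≤ Real.log 2 := by
    have := Real.log_two_gt_d9
    linarith
  have h2 : ∀ D : Finset α, (if 4 * p * n < D.card then (1 : ℝ) else 0) ≤
      Real.exp (-(2 * p * n)) * 2 ^ (D \ ∅).card := by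
    intro D
    rw [Finset.sdiff_empty]
    split_ifs with h
    · have h3 : (2 : ℝ) ^ D.card = Real.exp (D.card * Real.log 2) := by
        rw [Real.exp_nat_mul, Real.exp_log (by norm_num)]
      rw [h3, ← Real.exp_add]
      apply Real.one_le_exp
      have h4 : (0 : ℝ) ≤ D.card := Nat.cast_nonneg _
      nlinarith
    · positivity
  refine (Ex_mono h0 h1 h2).trans ?_
  rw [Ex_mul p _ (fun D : Finset α => (2 : ℝ) ^ (D \ ∅).card), Ex_pow_sdiff,
    Finset.compl_empty, Finset.card_univ]
  have h5 : (1 - p + p * 2) ^ Fintype.card α ≤ Real.exp (p * n) := by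
    rw [hn, mul_comm p (Fintype.card α : ℝ), Real.exp_nat_mul]
    apply pow_le_pow_left₀ (by linarith)
    have := Real.add_one_le_exp p
    linarith
  calc Real.exp (-(2 * p * n)) * (1 - p + p * 2) ^ Fintype.card α
      ≤ Real.exp (-(2 * p * n)) * Real.exp (p * n) :=
        mul_le_mul_of_nonneg_left h5 (Real.exp_pos _).le
    _ = Real.exp (-(p * n)) := by
        rw [← Real.exp_add]
        congr 1
        ring

theorem sum_pow_tail (lam a : ℝ) (h : 0 ≤ lam) :
    ∑ W : Finset α, (if a < W.card then lam ^ W.card else 0) ≤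
      Real.exp (2 * lam * Fintype.card α - a * Real.log 2) := by
  have h2 : ∀ W : Finset α, (if a < W.card then lam ^ W.card else 0) ≤
      Real.exp (-(a * Real.log 2)) * (2 * lam) ^ W.card := by
    intro W
    split_ifs with hW
    · have h3 : (2 : ℝ) ^ W.card = Real.exp (W.card * Real.log 2) := by
        rw [Real.exp_nat_mul, Real.exp_log (by norm_num)]
      have hl : 0 ≤ Real.log 2 := Real.log_nonneg (by norm_num)
      have h4 : 1 ≤ Real.exp (-(a * Real.log 2)) * 2 ^ W.card := by
        rw [h3, ← Real.exp_add]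
        apply Real.one_le_exp
        nlinarith
      rw [mul_pow, ← mul_assoc]
      exact le_mul_of_one_le_left (pow_nonneg h _) h4
    · positivity
  refine (Finset.sum_le_sum fun W _ => h2 W).trans ?_
  rw [← Finset.mul_sum]
  have h5 : ∑ W : Finset α, (2 * lam) ^ W.card = (2 * lam + 1) ^ Fintype.card α := by
    have h6 := Finset.prod_add (fun _ : α => 2 * lam) (fun _ => (1 : ℝ)) Finset.univ
    simp only [Finset.prod_const, Finset.card_univ, one_pow, mul_one,
      Finset.powerset_univ] at h6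
    exact h6.symm
  have h7 : (2 * lam + 1) ^ Fintype.card α ≤ Real.exp (2 * lam * Fintype.card α) := by
    rw [mul_comm (2 * lam) (Fintype.card α : ℝ), Real.exp_nat_mul]
    exact pow_le_pow_left₀ (by linarith) (Real.add_one_le_exp _) _
  rw [h5]
  calc Real.exp (-(a * Real.log 2)) * (2 * lam + 1) ^ Fintype.card α
      ≤ Real.exp (-(a * Real.log 2)) * Real.exp (2 * lam * Fintype.card α) :=
        mul_le_mul_of_nonneg_left h7 (Real.exp_pos _).le
    _ = _ := by
        rw [← Real.exp_add]
        congr 1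
        ring

end Pool.Agent.Work.MP_807b32_lc.Lin
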